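import Pool.Agent.R908.SpecB
import Pool.Agent.W534.PoleC
import Pool.Agent.R940.Wrd

/-!
# Characteristic polynomials, eigenspaces and extension of the coefficients
-/

set_option linter.unusedVariables false
set_option linter.unusedSectionVars false

open TensorProduct Polynomial Module

namespace Pool.Agent.N204.GT

open Pool.Agent.W534 (charpolyOn)
open Pool.Agent.R908 (coef coef_baseChange mem_baseChange_iff)
open Pool.Agent.R940 (gen_semi)

variable {K : Type*} [Field K] {L : Type*} [Field L] [Algebra K L] {V : Type*} [AddCommGroup V]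
  [Module K V] [Module.Finite K V]

lemma charpolyOn_eq {f : V →ₗ[K] V} {S : Submodule K V} (h : ∀ x ∈ S, f x ∈ S) :
    charpolyOn f S = (f.restrict h).charpoly := by
  rw [charpolyOn, dif_pos h]

lemma baseChange_stable {f : V →ₗ[K] V} {S : Submodule K V} (h : ∀ x ∈ S, f x ∈ S) :
    ∀ x ∈ S.baseChange L, f.baseChange L x ∈ S.baseChange L := by
  intro x hx
  rw [mem_baseChange_iff] at hx ⊢
  intro lam
  rw [coef_baseChange]
  exact h _ (hx lam)

omit [Module.Finite K V] in
/-- The characteristic polynomial on the image of an injective map. -/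
lemma charpolyOn_range {A : Type*} [AddCommGroup A] [Module K A] [Module.Finite K A]
    [Module.Finite K V] {g : A →ₗ[K] V} (hg : Function.Injective g) {fA : Module.End K A}
    {fV : V →ₗ[K] V} (h : ∀ x, fV (g x) = g (fA x)) {N : Submodule K V} (hN : LinearMap.range g = N) :
    charpolyOn fV N = fA.charpoly := by
  subst hN
  have hst : ∀ x ∈ LinearMap.range g, fV x ∈ LinearMap.range g := by
    rintro _ ⟨a, rfl⟩
    exact ⟨fA a, (h a).symm⟩
  let e : A ≃ₗ[K] LinearMap.range g := LinearEquiv.ofInjective g hg
  rw [charpolyOn_eq hst, ← LinearEquiv.charpoly_conj e fA]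
  congr 1
  apply LinearMap.ext
  intro x
  obtain ⟨y, rfl⟩ := e.surjective x
  rw [LinearEquiv.conj_apply_apply, LinearEquiv.symm_apply_apply]
  apply Subtype.ext
  exact h y

/-- The characteristic polynomial and extension of the coefficients. -/
lemma charpolyOn_base {f : V →ₗ[K] V} {S : Submodule K V} (h : ∀ x ∈ S, f x ∈ S) :
    charpolyOn (f.baseChange L) (S.baseChange L) = (charpolyOn f S).map (algebraMap K L) := by
  rw [charpolyOn_eq h, ← LinearMap.charpoly_baseChange]
  refine charpolyOn_range (g := S.subtype.baseChange L) ?_ ?_ ?_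
  · exact Module.Flat.lTensor_preserves_injective_linearMap _ Subtype.val_injective
  · intro y
    induction y using TensorProduct.induction_on with
    | zero => simp only [map_zero]
    | add x y hx hy => simp only [map_add, hx, hy]
    | tmul l a =>
      rw [LinearMap.baseChange_tmul, LinearMap.baseChange_tmul, LinearMap.baseChange_tmul,
        LinearMap.baseChange_tmul]
      rfl
  · rfl

/-- Eigenvalues are roots of the characteristic polynomial. -/
lemma root_of_gen {f : Module.End K V} {μ : K} {x : V} (hx : x ∈ f.maxGenEigenspace μ)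
    (hx0 : x ≠ 0) : f.charpoly.IsRoot μ := by
  obtain ⟨n, hn⟩ := (Module.End.mem_maxGenEigenspace _ _ _).1 hx
  have h0 : f.HasGenEigenvalue μ n := by
    intro hbot
    have h2 : x ∈ f.genEigenspace μ n := by
      rw [Module.End.mem_genEigenspace_nat, LinearMap.mem_ker]
      exact hn
    rw [hbot] at h2
    exact hx0 ((Submodule.mem_bot _).1 h2)
  exact (Module.End.hasEigenvalue_iff_isRoot_charpoly _ _).1
    (Module.End.hasEigenvalue_of_hasGenEigenvalue h0)

/-- Stable subspaces decompose over an algebraically closed field. -/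
lemma up [IsAlgClosed L] {F : Module.End K V} {U : Submodule K V} (hU : ∀ x ∈ U, F x ∈ U) {x : V}
    (hx : x ∈ U) : (1 : L) ⊗ₜ[K] x ∈ ⨆ α : {α : L // aeval α (charpolyOn F U) = 0},
      (Module.End.maxGenEigenspace (F.baseChange L) α.1 ⊓ U.baseChange L) := by
  set F' : Module.End L (L ⊗[K] U) := (F.restrict hU).baseChange L with hF'
  let θ : L ⊗[K] U →ₗ[L] L ⊗[K] V := U.subtype.baseChange L
  have hθ : ∀ y, F.baseChange L (θ y) = θ (F' y) := by
    intro y
    induction y using TensorProduct.induction_on with
    | zero => simp only [map_zero]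
    | add x y hx hy => simp only [map_add, hx, hy]
    | tmul l a =>
      simp only [θ, hF', LinearMap.baseChange_tmul]
      rfl
  have h1 : ∀ y : L ⊗[K] U, θ y ∈ ⨆ α : {α : L // aeval α (charpolyOn F U) = 0},
      (Module.End.maxGenEigenspace (F.baseChange L) α.1 ⊓ U.baseChange L) := by
    intro y
    have h2 : y ∈ ⨆ μ, F'.maxGenEigenspace μ := by
      rw [Module.End.iSup_maxGenEigenspace_eq_top]
      trivial
    refine Submodule.iSup_induction _ (motive := fun y => θ y ∈
      ⨆ α : {α : L // aeval α (charpolyOn F U) = 0},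
      (Module.End.maxGenEigenspace (F.baseChange L) α.1 ⊓ U.baseChange L)) h2 ?_ ?_ ?_
    · intro μ y hy
      by_cases hy0 : y = 0
      · rw [hy0, map_zero]; exact Submodule.zero_mem _
      have h3 := root_of_gen hy hy0
      rw [hF', LinearMap.charpoly_baseChange, ← charpolyOn_eq hU, IsRoot.def,
        eval_map_algebraMap] at h3
      refine Submodule.mem_iSup_of_mem ⟨μ, h3⟩ ⟨gen_semi hθ hy, ?_⟩
      clear h2 hy hy0 h3
      induction y using TensorProduct.induction_on with
      | zero => rw [map_zero]; exact Submodule.zero_mem _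
      | add x y hx hy => rw [map_add]; exact Submodule.add_mem _ hx hy
      | tmul l a =>
        exact Submodule.tmul_mem_baseChange_of_mem l a.2
    · rw [map_zero]; exact Submodule.zero_mem _
    · intro a b ha hb; rw [map_add]; exact Submodule.add_mem _ ha hb
  exact h1 ((1 : L) ⊗ₜ[K] ⟨x, hx⟩)

lemma aeval_baseChange (F : Module.End K V) (P : K[X]) :
    ((aeval F P : Module.End K V).baseChange L : Module.End L (L ⊗[K] V)) =
      aeval (F.baseChange L : Module.End L (L ⊗[K] V)) (P.map (algebraMap K L)) := by
  induction P using Polynomial.induction_on' with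
  | add p q hp hq =>
    rw [map_add, LinearMap.baseChange_add, hp, hq, Polynomial.map_add, map_add]
  | monomial n a =>
    rw [Polynomial.map_monomial, aeval_monomial, aeval_monomial, Module.algebraMap_end_eq_smul_id,
      Module.algebraMap_end_eq_smul_id]
    apply LinearMap.ext
    intro x
    induction x using TensorProduct.induction_on with
    | zero => simp only [map_zero]
    | add x y hx hy => simp only [map_add, hx, hy]
    | tmul l v =>
      have h1 : ∀ n : ℕ, ((F.baseChange L : Module.End L (L ⊗[K] V)) ^ n) (l ⊗ₜ[K] v) =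
          l ⊗ₜ[K] ((F ^ n) v) := by
        intro n
        induction n with
        | zero => rfl
        | succ n ih => rw [pow_succ', Module.End.mul_apply, ih, pow_succ', Module.End.mul_apply,
            LinearMap.baseChange_tmul]
      rw [LinearMap.baseChange_tmul, Module.End.mul_apply, Module.End.mul_apply, h1,
        LinearMap.smul_apply, LinearMap.smul_apply, LinearMap.id_apply, LinearMap.id_apply,
        TensorProduct.tmul_smul, algebraMap_smul]

/-- Descent of generalised eigenspaces: divisibility of the eigenvalues is defined over the field of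
the coefficients. -/
lemma down [CharZero L] [IsAlgClosed L] {F : Module.End K V} {G : Submodule K V}
    (hG : ∀ x ∈ G, F x ∈ G) {q : ℕ} (hq : q ≠ 0) {α : L} (hα : IsIntegral ℤ (α / (q : L)))
    {x : L ⊗[K] V} (hx : x ∈ Module.End.maxGenEigenspace (F.baseChange L) α)
    (hxG : x ∈ G.baseChange L) : ∃ U : Submodule K V, U ≤ G ∧ (∀ x ∈ U, F x ∈ U) ∧
      (∀ β : L, aeval β (charpolyOn F U) = 0 → IsIntegral ℤ (β / (q : L))) ∧
      x ∈ U.baseChange L := by
  obtain ⟨f, hf, h0⟩ := hα
  have hqL : (q : L) ≠ 0 := Nat.cast_ne_zero.2 hq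
  set P : ℤ[X] := scaleRoots f (q : ℤ) with hP
  have hroot : ∀ β : L, eval₂ (algebraMap ℤ L) β P = (q : L) ^ f.natDegree *
      eval₂ (algebraMap ℤ L) (β / (q : L)) f := by
    intro β
    have h1 := scaleRoots_eval₂_mul (p := f) (algebraMap ℤ L) (β / (q : L)) (q : ℤ)
    rw [map_natCast, mul_div_cancel₀ _ hqL] at h1
    exact h1
  have hP0 : eval₂ (algebraMap ℤ L) α P = 0 := by rw [hroot, h0, mul_zero]
  set PK : K[X] := P.map (Int.castRingHom K) with hPK
  have hPL : ∀ β : L, (PK.map (algebraMap K L)).eval β = eval₂ (algebraMap ℤ L) β P := by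
    intro β
    rw [hPK, Polynomial.map_map, eval_map]
    congr 1
    exact RingHom.ext_int _ _
  set T : Module.End K V := aeval F PK with hT
  have hcomm : Commute T F := by
    have h1 : Commute (aeval F PK) (aeval F (X : K[X])) := by
      rw [Commute, SemiconjBy, ← map_mul, ← map_mul, mul_comm]
    rwa [aeval_X] at h1
  obtain ⟨n, hn⟩ := (Module.End.mem_maxGenEigenspace _ _ _).1 hx
  set U : Submodule K V := LinearMap.ker (T ^ n) ⊓ G with hU
  have hstab : ∀ x ∈ U, F x ∈ U := by
    rintro x ⟨h1, h2⟩
    refine ⟨?_, hG x h2⟩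
    have h1' : (T ^ n) x = 0 := h1
    have h3 : (T ^ n) (F x) = F ((T ^ n) x) := by
      have := (hcomm.pow_left n).eq
      exact congrArg (fun g => g x) this
    change (T ^ n) (F x) = 0
    rw [h3, h1', map_zero]
  refine ⟨U, inf_le_right, hstab, ?_, ?_⟩
  · intro β hβ
    rw [charpolyOn_eq hstab] at hβ
    set FU : Module.End K U := F.restrict hstab with hFU
    set F' : Module.End L (L ⊗[K] U) := FU.baseChange L with hF'
    have h1 : F'.charpoly.IsRoot β := by
      rw [hF', LinearMap.charpoly_baseChange, IsRoot.def, eval_map_algebraMap]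
      exact hβ
    obtain ⟨y, hy⟩ := ((Module.End.hasEigenvalue_iff_isRoot_charpoly F' β).2 h1).exists_hasEigenvector
    have h2 : (aeval FU (PK ^ n) : Module.End K U) = 0 := by
      apply LinearMap.ext
      rintro ⟨u, hu⟩
      apply Subtype.ext
      have key : ∀ (Q : K[X]) (u : U), (((aeval FU Q : Module.End K U) u : U) : V) =
          (aeval F Q : Module.End K V) (u : V) := by
        intro Q
        induction Q using Polynomial.induction_on' with
        | add p q hp hq => intro u; rw [map_add, map_add, LinearMap.add_apply, LinearMap.add_apply,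
            Submodule.coe_add, hp, hq]
        | monomial m a =>
          intro u
          have h3 : ∀ (m : ℕ) (u : U), (((FU ^ m) u : U) : V) = (F ^ m) (u : V) := by
            intro m
            induction m with
            | zero => intro u; rfl
            | succ m ih => intro u; rw [pow_succ, pow_succ, Module.End.mul_apply,
                Module.End.mul_apply, ih]; rfl
          rw [aeval_monomial, aeval_monomial, Module.End.mul_apply, Module.End.mul_apply,
            Module.algebraMap_end_apply, Module.algebraMap_end_apply, Submodule.coe_smul, h3]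
      rw [key, map_pow]
      exact hu.1
    have h3 : (aeval F' ((PK ^ n).map (algebraMap K L)) : Module.End L (L ⊗[K] U)) = 0 := by
      rw [hF', ← aeval_baseChange, h2, LinearMap.baseChange_zero]
    have h4 := Module.End.aeval_apply_of_hasEigenvector (p := (PK ^ n).map (algebraMap K L)) hy
    rw [h3, LinearMap.zero_apply] at h4
    have h5 : ((PK ^ n).map (algebraMap K L)).eval β = 0 :=
      (smul_eq_zero.1 h4.symm).resolve_right hy.2
    rw [Polynomial.map_pow, eval_pow, hPL, hroot] at h5
    have h6 := eq_zero_of_pow_eq_zero h5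
    exact ⟨f, hf, (mul_eq_zero.1 h6).resolve_left (pow_ne_zero _ hqL)⟩
  · rw [mem_baseChange_iff]
    intro lam
    refine ⟨?_, mem_baseChange_iff.1 hxG lam⟩
    change (T ^ n) (coef lam x) = 0
    rw [← coef_baseChange]
    have h1 : ((T ^ n : Module.End K V).baseChange L : Module.End L (L ⊗[K] V)) x = 0 := by
      have h2 : ((T ^ n : Module.End K V).baseChange L : Module.End L (L ⊗[K] V)) =
          aeval (F.baseChange L : Module.End L (L ⊗[K] V)) ((PK.map (algebraMap K L)) ^ n) := by
        rw [hT, ← map_pow, aeval_baseChange, Polynomial.map_pow]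
      obtain ⟨Q, hQ⟩ := dvd_iff_isRoot.2 (show (PK.map (algebraMap K L)).IsRoot α by
        rw [IsRoot.def, hPL, hP0])
      rw [h2, hQ, mul_comm, mul_pow, map_mul, Module.End.mul_apply, map_pow _ (X - C α), map_sub,
        aeval_X, aeval_C]
      have h3 : (algebraMap L (Module.End L (L ⊗[K] V))) α = α • 1 := by
        rw [Algebra.algebraMap_eq_smul_one]
      rw [h3, hn, map_zero]
    rw [h1, map_zero]

end Pool.Agent.N204.GT
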