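import Pool.Agent.N204.GT.Geo
import Pool.Agent.N204.GT.Lin

/-!
# The generalized Tate conjecture and extension of the coefficients
-/

set_option linter.unusedVariables false
set_option linter.unusedSectionVars false

open CategoryTheory AlgebraicGeometry CategoryTheory.Limits TensorProduct

universe u v

namespace Pool.Agent.N204.GT

open Pool.Agent.H914 Pool.Agent.H447 Pool.Agent.W534 Pool.Agent.Y163 VarClass Obj WeilCohomology
  Module Polynomial
open Pool.Agent.R940 hiding mem_of_baseChange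
open Pool.Agent.R908 (baseFrob base_map_tmul base_map_eq base_induction_mod mem_baseChange_iff
  coef coef_baseChange)
open Pool.Agent.N204.GH (cv push_cv)

variable {k : Type u} [Field k] {𝒱 : VarClass k} {ops : CycleOps 𝒱}
  {W : WeilCohomology.{u, v} ops} {X Y Y' Z U S : 𝒱.Obj} {p : ℕ}
  {Φ : FrobSystem W p} {σ : W.K →+* ℂ} {L : Type v} [Field L] [Algebra W.K L]

lemma frob_base (Y : 𝒱.Obj) (s : ℕ) :
    (frob (baseFrob Φ L) Y s : L ⊗[W.K] W.H Y →ₗ[L] L ⊗[W.K] W.H Y) =
      (frob Φ Y s).baseChange L :=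
  base_map_eq _

/-- The Frobenius polynomials do not change. -/
lemma frobPoly_base {σ' : L →+* ℂ} (hσ : σ'.comp (algebraMap W.K L) = σ) (Y : 𝒱.Obj) (s i : ℕ) :
    frobPoly (baseFrob Φ L) σ' Y s i = frobPoly Φ σ Y s i := by
  have h1 : charpolyOn ((baseW W L).map (W534.iter ((baseFrob Φ L).Fr Y) s)).toLinearMap
      ((baseW W L).gr Y i) = (charpolyOn (W.map (W534.iter (Φ.Fr Y) s)).toLinearMap
        (W.gr Y i)).map (algebraMap W.K L) := by
    rw [← charpolyOn_base (L := L) (fun _ hx => W.map_mem _ hx)]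
    have h2 := base_map_eq (W := W) (L := L) (W534.iter (Φ.Fr Y) s)
    change charpolyOn ((baseW W L).map (W534.iter (Φ.Fr Y) s)).toLinearMap _ = _
    rw [h2]
    rfl
  rw [frobPoly, h1]
  change Polynomial.map σ' (Polynomial.map (algebraMap W.K L) _) = _
  rw [Polynomial.map_map, hσ]
  rfl

/-- The coniveau filtration and extension of the coefficients. -/
lemma cv_base (ν : ℕ) (Y : 𝒱.Obj) :
    (cv (baseW W L) ν Y : Submodule L (L ⊗[W.K] W.H Y)) = (cv W ν Y).baseChange L := by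
  have hpush : ∀ {Y' : 𝒱.Obj} (f : Y' ⟶ Y) (y : L ⊗[W.K] W.H Y'),
      ((baseW W L).push f y : L ⊗[W.K] W.H Y) = (W.push f).baseChange L y := fun f y => rfl
  apply le_antisymm
  · refine Submodule.span_le.2 ?_
    rintro _ ⟨Y', f, y, h1, rfl⟩
    change (W.push f).baseChange L y ∈ (cv W ν Y).baseChange L
    obtain ⟨y', rfl⟩ : ∃ y' : L ⊗[W.K] W.H Y', y' = y := ⟨y, rfl⟩
    rw [mem_baseChange_iff]
    intro lam
    rw [coef_baseChange]
    exact Pool.Agent.N204.GH.push_mem_cv f h1 _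
  · intro x hx
    refine base_induction_mod (P := fun x : L ⊗[W.K] W.H Y =>
      x ∈ (cv (baseW W L) ν Y : Submodule L (L ⊗[W.K] W.H Y))) (Submodule.zero_mem _)
      (fun _ _ => Submodule.add_mem _) ?_ hx
    intro l a ha
    induction ha using Submodule.span_induction with
    | mem a ha =>
      obtain ⟨Y', f, y, h1, rfl⟩ := ha
      have h2 : l ⊗ₜ[W.K] (W.push f y) = (W.push f).baseChange L (l ⊗ₜ[W.K] y) := by
        rw [LinearMap.baseChange_tmul]
      rw [h2]
      exact Pool.Agent.N204.GH.push_mem_cv (W := baseW W L) f h1 _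
    | zero => rw [TensorProduct.tmul_zero]; exact Submodule.zero_mem _
    | add a b _ _ ha hb => rw [TensorProduct.tmul_add]; exact Submodule.add_mem _ ha hb
    | smul c a _ ha =>
      rw [TensorProduct.tmul_smul, ← algebraMap_smul L]
      exact Submodule.smul_mem _ _ ha

/-- Effectivity of the twist of a subspace of `H^i(Y)`. -/
def Eff (L : Type v) [Field L] [Algebra W.K L] (Φ : FrobSystem W p) {Y : 𝒱.Obj} (i ν : ℕ)
    (V : Submodule W.K (W.H Y)) : Prop :=
  V ≤ W.gr Y i ∧ ∃ s : ℕ, 0 < s ∧ (∀ x ∈ V, frob Φ Y s x ∈ V) ∧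
    ∀ α : L, aeval α (charpolyOn (frob Φ Y s) V) = 0 → IsIntegral ℤ (α / (card Φ Y s : L) ^ ν)

lemma card_pow' {K : Type*} [Field K] (Y : 𝒱.Obj) (s ν : ℕ) :
    (card Φ Y s : K) ^ ν = (p : K) ^ (Φ.e Y * s * ν) := by
  rw [card, Nat.cast_pow, ← pow_mul]

/-- The span of the generalised eigenvectors of given degree and coniveau. -/
noncomputable def spC [Fact p.Prime] (Φ : FrobSystem W p) (Y : 𝒱.Obj) (i ν : ℕ) :
    Submodule W.K (W.H Y) :=
  Submodule.span W.K {y | Cn Φ Y i ν y}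

/-- The span of the exterior products. -/
noncomputable def spE [Fact p.Prime] (Φ : FrobSystem W p) (Z X : 𝒱.Obj) (n i ν : ℕ) :
    Submodule W.K (W.H (Z.prod (pw X n))) :=
  Submodule.span W.K {y | IsExtC Φ Z X n i ν y}

/-- From subspaces to generalised eigenvectors. -/
lemma up_Cn [IsAlgClosed L] [hp : Fact p.Prime] {i ν : ℕ} {V : Submodule W.K (W.H Y)}
    (hV : Eff L Φ i ν V) {x : W.H Y} (hx : x ∈ V) :
    (1 : L) ⊗ₜ[W.K] x ∈ (spC (baseFrob Φ L) Y i ν : Submodule L (L ⊗[W.K] W.H Y)) := by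
  obtain ⟨hgr, s, hs, hst, hα⟩ := hV
  have h1 := up (L := L) hst hx
  have h2 : (⨆ α : {α : L // aeval α (charpolyOn (frob Φ Y s) V) = 0},
      ((Module.End.maxGenEigenspace ((frob Φ Y s).baseChange L) α.1) ⊓ V.baseChange L)) ≤
      (spC (baseFrob Φ L) Y i ν : Submodule L (L ⊗[W.K] W.H Y)) := by
    refine iSup_le ?_
    rintro ⟨α, h3⟩ y ⟨hy1, hy2⟩
    refine Submodule.subset_span (s := {y | Cn (baseFrob Φ L) Y i ν y}) ⟨s, α, hs, ?_, ?_, ?_⟩
    · have h4 := hα α h3
      rw [card_pow'] at h4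
      exact h4
    · have h5 := frob_base (Φ := Φ) (L := L) Y s
      rw [← h5] at hy1
      exact hy1
    · exact Submodule.baseChange_mono (A := L) hgr hy2
  exact h2 h1

/-- From generalised eigenvectors to subspaces. -/
lemma down_Cn [IsAlgClosed L] [hp : Fact p.Prime] {i ν : ℕ} {x : (baseW W L).H Y}
    (hx : Cn (baseFrob Φ L) Y i ν x) : ∃ V : Submodule W.K (W.H Y), Eff L Φ i ν V ∧
      (show L ⊗[W.K] W.H Y from x) ∈ V.baseChange L := by
  obtain ⟨s, α, hs, hα, hE, hgr⟩ := hx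
  have : CharZero L := charZero_of_injective_algebraMap (algebraMap W.K L).injective
  have h5 := frob_base (Φ := Φ) (L := L) Y s
  have hE' : (show L ⊗[W.K] W.H Y from x) ∈
      Module.End.maxGenEigenspace ((frob Φ Y s).baseChange L) (show L from α) := by
    rw [← h5]
    exact hE
  have hα' : IsIntegral ℤ ((show L from α) / ((p ^ (Φ.e Y * s * ν) : ℕ) : L)) := by
    rw [Nat.cast_pow]
    exact hα
  obtain ⟨V, h1, h2, h3, h4⟩ := down (G := W.gr Y i) (fun _ hx => W.map_mem _ hx)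
    (pow_ne_zero _ hp.out.ne_zero) hα' hE' hgr
  refine ⟨V, ⟨h1, s, hs, h2, fun β hβ => ?_⟩, h4⟩
  have h6 := h3 β hβ
  rw [card_pow']
  rw [Nat.cast_pow] at h6
  exact h6

/-- Products of classes with extended coefficients. -/
lemma base_mul2 {G' : Submodule W.K (W.H Y)} {G'' : Submodule W.K (W.H Y')}
    {G : Submodule W.K (W.H Z)} (f : Z ⟶ Y) (g : Z ⟶ Y')
    (h : ∀ a ∈ G', ∀ b ∈ G'', W.map f a * W.map g b ∈ G)
    {x : (baseW W L).H Y} {y : (baseW W L).H Y'}
    (hx : (show L ⊗[W.K] W.H Y from x) ∈ G'.baseChange L)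
    (hy : (show L ⊗[W.K] W.H Y' from y) ∈ G''.baseChange L) :
    (show L ⊗[W.K] W.H Z from (baseW W L).map f x * (baseW W L).map g y) ∈ G.baseChange L := by
  refine base_induction_mod (P := fun x : L ⊗[W.K] W.H Y => (show L ⊗[W.K] W.H Z from
    (baseW W L).map f x * (baseW W L).map g y) ∈ G.baseChange L) ?_ ?_ ?_ hx
  · have h1 : (baseW W L).map f (0 : L ⊗[W.K] W.H Y) * (baseW W L).map g y = 0 := by
      have : (baseW W L).map f (0 : L ⊗[W.K] W.H Y) = 0 := map_zero _
      rw [this, zero_mul]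
    rw [h1]
    exact Submodule.zero_mem _
  · intro a b ha hb
    have h1 : (baseW W L).map f (a + b : L ⊗[W.K] W.H Y) * (baseW W L).map g y =
        (baseW W L).map f a * (baseW W L).map g y + (baseW W L).map f b * (baseW W L).map g y := by
      have : (baseW W L).map f (a + b : L ⊗[W.K] W.H Y) =
        (baseW W L).map f a + (baseW W L).map f b := map_add _ _ _
      rw [this, add_mul]
    rw [h1]
    exact Submodule.add_mem _ ha hb
  · intro l a ha
    refine base_induction_mod (P := fun y : L ⊗[W.K] W.H Y' => (show L ⊗[W.K] W.H Z from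
      (baseW W L).map f (l ⊗ₜ[W.K] a) * (baseW W L).map g y) ∈ G.baseChange L) ?_ ?_ ?_ hy
    · have h1 : (baseW W L).map f (l ⊗ₜ[W.K] a) * (baseW W L).map g (0 : L ⊗[W.K] W.H Y') = 0 := by
        have : (baseW W L).map g (0 : L ⊗[W.K] W.H Y') = 0 := map_zero _
        rw [this, mul_zero]
      rw [h1]
      exact Submodule.zero_mem _
    · intro b c hb hc
      have h1 : (baseW W L).map f (l ⊗ₜ[W.K] a) * (baseW W L).map g (b + c : L ⊗[W.K] W.H Y') =
          (baseW W L).map f (l ⊗ₜ[W.K] a) * (baseW W L).map g b +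
            (baseW W L).map f (l ⊗ₜ[W.K] a) * (baseW W L).map g c := by
        have : (baseW W L).map g (b + c : L ⊗[W.K] W.H Y') =
          (baseW W L).map g b + (baseW W L).map g c := map_add _ _ _
        rw [this, mul_add]
      rw [h1]
      exact Submodule.add_mem _ hb hc
    · intro l' b hb
      have h1 : (show L ⊗[W.K] W.H Z from (baseW W L).map f (l ⊗ₜ[W.K] a) *
          (baseW W L).map g (l' ⊗ₜ[W.K] b)) = (l * l') ⊗ₜ[W.K] (W.map f a * W.map g b) := by
        rw [base_map_tmul, base_map_tmul]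
        exact Algebra.TensorProduct.tmul_mul_tmul _ _ _ _
      rw [h1]
      exact Submodule.tmul_mem_baseChange_of_mem _ (h a ha b hb)

/-- The generalized Tate conjecture. -/
def GTCL (L : Type v) [Field L] [Algebra W.K L] (Φ : FrobSystem W p) (Y : 𝒱.Obj) : Prop :=
  ∀ (i ν : ℕ) (V : Submodule W.K (W.H Y)), Eff L Φ i ν V → V ≤ cv W ν Y

theorem gtc_iff [IsAlgClosed L] [hp : Fact p.Prime] : GTCL L Φ Y ↔ GC (baseFrob Φ L) Y := by
  constructor
  · intro h i ν x hx
    obtain ⟨V, hV, h1⟩ := down_Cn hx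
    have h2 := Submodule.baseChange_mono (A := L) (h i ν V hV) h1
    rw [← cv_base] at h2
    exact h2
  · intro h i ν V hV x hx
    have h1 := up_Cn (L := L) hV hx
    have h2 : spC (baseFrob Φ L) Y i ν ≤ cv (baseW W L) ν Y :=
      Submodule.span_le.2 fun y hy => h i ν y hy
    have h3 : (1 : L) ⊗ₜ[W.K] x ∈ (cv W ν Y).baseChange L := by
      rw [← cv_base]
      exact h2 h1
    exact Pool.Agent.R940.mem_of_baseChange h3

/-- The exterior products. -/
def ExtL (L : Type v) [Field L] [Algebra W.K L] (Φ : FrobSystem W p) (Z X : 𝒱.Obj) (n i c : ℕ)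
    (x : W.H (Z.prod (pw X n))) : Prop :=
  ∃ (a b : ℕ) (e : Fin (a + 1) → Fin (n + 1)) (e' : Fin (b + 1) → Fin (n + 1))
    (i' i'' c' c'' : ℕ) (V' : Submodule W.K (W.H (Z.prod (pw X a))))
    (V'' : Submodule W.K (W.H (pw X b))) (v : W.H (Z.prod (pw X a))) (w : W.H (pw X b)),
    (List.ofFn e ++ List.ofFn e').Perm (List.finRange (n + 1)) ∧ i' + i'' = i ∧ c' + c'' = c ∧
    Eff L Φ i' c' V' ∧ Eff L Φ i'' c'' V'' ∧ v ∈ V' ∧ w ∈ V'' ∧
    x = W.map (projZ Z X e) v * W.map (snd Z (pw X n)) (W.map (proj X e') w)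

/-- **Splitting over the field of the coefficients.** -/
theorem splitL [IsAlgClosed L] [hp : Fact p.Prime] {σ' : L →+* ℂ}
    (hRHX : RiemannHyp (baseFrob Φ L) σ' X) (hRHZ : RiemannHyp (baseFrob Φ L) σ' Z)
    (hX : HasIntegralPolys (baseFrob Φ L) σ' X) (hZ : HasIntegralPolys (baseFrob Φ L) σ' Z)
    {E : X.Cycles} (hE : X.IsCyc 1 E) (hbig : Big ops X E) {D : ℕ}
    (hD : IsSlopeDenominator (baseFrob Φ L) σ' X D) {n : ℕ}
    (hn : gtcBound (finrank W.K (W.H X)) D Z.dim < n + 1) {i ν : ℕ}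
    {V : Submodule W.K (W.H (Z.prod (pw X n)))} (hV : Eff L Φ i ν V) :
    V ≤ Submodule.span W.K {x | ExtL L Φ Z X n i ν x} := by
  intro x hx
  have hfin : finrank (baseW W L).K ((baseW W L).H X) = finrank W.K (W.H X) :=
    Module.finrank_baseChange (R := L) (S := W.K) (M' := W.H X)
  have hclosed : IsAlgClosed (baseW W L).K := inferInstanceAs (IsAlgClosed L)
  have h1 := up_Cn (L := L) hV hx
  have h2 : ∀ y : (baseW W L).H (Z.prod (pw X n)), Cn (baseFrob Φ L) _ i ν y →
      (show L ⊗[W.K] W.H (Z.prod (pw X n)) from y) ∈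
        (Submodule.span W.K {x | ExtL L Φ Z X n i ν x}).baseChange L := by
    intro y hy
    have h3 := splitN hRHX hRHZ hX hZ hE hbig hD (by rw [hfin]; exact hn) hy
    have h4 : (spE (baseFrob Φ L) Z X n i ν : Submodule L (L ⊗[W.K] W.H (Z.prod (pw X n)))) ≤
        (Submodule.span W.K {x | ExtL L Φ Z X n i ν x}).baseChange L := by
      refine Submodule.span_le.2 ?_
      rintro _ ⟨a, b, e, e', i', i'', c', c'', v, w, g1, g2, g3, g4, g5, rfl⟩
      obtain ⟨V', hV', hv⟩ := down_Cn g4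
      obtain ⟨V'', hV'', hw⟩ := down_Cn g5
      have h5 := base_mul2 (W := W) (L := L) (projZ Z X e) (snd Z (pw X n) ≫ proj X e')
        (G := Submodule.span W.K {x | ExtL L Φ Z X n i ν x}) (fun v' hv' w' hw' =>
          Submodule.subset_span ⟨a, b, e, e', i', i'', c', c'', V', V'', v', w', g1, g2, g3, hV',
            hV'', hv', hw', by rw [W.map_comp (snd Z (pw X n)) (proj X e')]⟩) hv hw
      rw [(baseW W L).map_comp (snd Z (pw X n)) (proj X e')] at h5
      exact h5
    exact h4 h3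
  have h5 : (spC (baseFrob Φ L) (Z.prod (pw X n)) i ν :
      Submodule L (L ⊗[W.K] W.H (Z.prod (pw X n)))) ≤
      (Submodule.span W.K {x | ExtL L Φ Z X n i ν x}).baseChange L :=
    Submodule.span_le.2 fun y hy => h2 y hy
  exact Pool.Agent.R940.mem_of_baseChange (h5 h1)

end Pool.Agent.N204.GT
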