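import Mathlib

/-!
# Subspaces and divisibility of roots: definitions
-/

open Polynomial

namespace Pool.Agent.N204.GT

section Linear

variable {K A B : Type*} [Field K] [Ring A] [Algebra K A] [Ring B] [Algebra K B]

/-- The value of a linear map. -/
def app (f : A →ₗ[K] B) (x : A) : B := f x

/-- The product of the values of two homomorphisms of algebras. -/
def mulApp {C : Type*} [Ring C] [Algebra K C] (f : A →ₐ[K] C) (g : B →ₐ[K] C) (x : A) (y : B) : C :=
  f x * g y

/-- The element `x` lies in the subspace `V`. -/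
def Mem (V : Submodule K A) (x : A) : Prop := x ∈ V

/-- The subspace `V` is contained in the subspace `V'`. -/
def Within (V V' : Submodule K A) : Prop := V ≤ V'

variable (K) in
/-- The subspace spanned by the elements with the property `P`. -/
def spanOf (P : A → Prop) : Submodule K A := Submodule.span K {x | P x}

/-- The element `x` is zero or an eigenvector of `f`, for the eigenvalue `c`. -/
def IsEigen (f : A →ₗ[K] A) (c : K) (x : A) : Prop := f x = c • x

/-- The element `x` is zero or a generalised eigenvector of `f`, for the eigenvalue `c`. -/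
def IsGenEigen (f : A →ₗ[K] A) (c : K) (x : A) : Prop :=
  ∃ n : ℕ, ((f - c • (1 : Module.End K A)) ^ n) x = 0

/-- The endomorphism maps the subspace to itself. -/
def Preserves (f : A →ₗ[K] A) (V : Submodule K A) : Prop := ∀ x ∈ V, f x ∈ V

end Linear

/-- For all roots `α` of the polynomial `P` in an algebraic closure the quotient `α / q ^ c` is an
algebraic integer. -/
def RootsDivisible {K : Type*} [Field K] (P : K[X]) (q c : ℕ) : Prop :=
  ∀ α : AlgebraicClosure K, aeval α P = 0 → IsIntegral ℤ (α / (q : AlgebraicClosure K) ^ c)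

/-- All conjugates of the algebraic integer `ϖ` have the absolute value `p ^ (a / 2)`. -/
def IsWeil {L : Type*} [Field L] (p a : ℕ) (ϖ : L) : Prop :=
  ∃ P : ℤ[X], P.Monic ∧ aeval ϖ P = 0 ∧ ∀ y : ℂ, aeval y P = 0 → ‖y‖ ^ 2 = (p : ℝ) ^ a

/-- The element `ϖ` is a root of the polynomial `P`. -/
def IsRootOf {K L : Type*} [Field K] [Field L] [Algebra K L] (P : K[X]) (ϖ : L) : Prop :=
  aeval ϖ P = 0

/-- The number `D (b (b + 3) (b + 1)! (2 D b) ^ b (2 e + 2 D b ^ 2) + b)`. -/
def bound (b D e : ℕ) : ℕ :=
  D * (b * ((b + 3) * ((b + 1).factorial * ((2 * D * b) ^ b * (2 * e + 2 * D * b ^ 2)))) + b)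

end Pool.Agent.N204.GT
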