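import Pool.Agent.R940.UDefs
import Pool.Agent.N204.GT.Elem

/-!
# Effective twists, the coniveau filtration and the generalized Tate conjecture

`W` is a Weil cohomology theory and `Φ` is a system of Frobenius endomorphisms
(`Pool.Agent.W534.FrobSystem`); in the intended use `W` is the `l`-adic cohomology of the smooth
projective varieties over an algebraic closure of the field with `p` elements.
-/

open CategoryTheory AlgebraicGeometry

universe u v

namespace Pool.Agent.N204.GT

open Pool.Agent.H914 Pool.Agent.H914.VarClass Pool.Agent.H914.VarClass.Obj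
  Pool.Agent.H914.WeilCohomology Pool.Agent.W534 Pool.Agent.R940
open Pool.Agent.Y163 (pw Big)

variable {k : Type u} [Field k] {𝒱 : VarClass k} {ops : CycleOps 𝒱}
  {W : WeilCohomology.{u, v} ops} {p : ℕ}

/-- The Weil conjectures for `Y` (theorems of Deligne): the Riemann hypothesis, and the
characteristic polynomials of the Frobenius endomorphism have integral coefficients. -/
def WeilConjectures (Φ : FrobSystem W p) (σ : W.K →+* ℂ) (Y : 𝒱.Obj) : Prop :=
  RiemannHyp Φ σ Y ∧ HasIntegralPolys Φ σ Y

/-- There is a divisor on `Y` whose self-intersection number, of order `dim Y`, is not zero (for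
example an ample divisor). -/
def HasBigDivisor (ops : CycleOps 𝒱) (Y : 𝒱.Obj) : Prop :=
  ∃ E : Y.Cycles, Y.IsCyc 1 E ∧ Big ops Y E

/-- The subspaces of the cohomology `H(Y)`, the sum of the `H^i(Y)`. -/
abbrev Subspace (W : WeilCohomology.{u, v} ops) (Y : 𝒱.Obj) := Submodule W.K (W.H Y)

/-- The Frobenius endomorphism of (a model of) `Y` over the field with `card Φ Y s` elements, on the
cohomology of `Y`. -/
noncomputable def frobenius (Φ : FrobSystem W p) (Y : 𝒱.Obj) (s : ℕ) : W.H Y →ₗ[W.K] W.H Y :=
  (W.map (iter (Φ.Fr Y) s)).toLinearMap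

/-- `V` is a subspace of `H^i(Y)` which is stable under the Frobenius endomorphism over a finite
field, with `q` elements, and the twist `V(c)` is effective: for all eigenvalues `α` of this
endomorphism on `V` the number `α / q ^ c` is an algebraic integer. -/
def IsEffective (Φ : FrobSystem W p) {Y : 𝒱.Obj} (i c : ℕ) (V : Subspace W Y) : Prop :=
  Within V (W.gr Y i) ∧ ∃ s : ℕ, 0 < s ∧ Preserves (frobenius Φ Y s) V ∧
    RootsDivisible (charpolyOn (frobenius Φ Y s) V) (card Φ Y s) c

/-- The class `x` on `Y` is the image under a Gysin homomorphism of a class on a variety of dimension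
at most `dim Y - j`. -/
def IsGysin (W : WeilCohomology.{u, v} ops) (j : ℕ) {Y : 𝒱.Obj} (x : W.H Y) : Prop :=
  ∃ (Y' : 𝒱.Obj) (f : Y' ⟶ Y) (y : W.H Y'), Y'.dim + j ≤ Y.dim ∧ x = app (W.push f) y

/-- The coniveau filtration `N^j H(Y)`: the subspace spanned by the images of the Gysin homomorphisms
of all morphisms to `Y` of varieties of dimension at most `dim Y - j`. -/
def coniveau (W : WeilCohomology.{u, v} ops) (j : ℕ) (Y : 𝒱.Obj) : Subspace W Y :=
  spanOf W.K (IsGysin W j)

/-- The generalized Tate conjecture for `Y`: for all `i` and `j`, all subspaces `V` of `H^i(Y)` which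
are stable under the Frobenius endomorphism over a finite field, with `V(j)` effective, are contained
in `N^j H(Y)`. -/
def GTC (Φ : FrobSystem W p) (Y : 𝒱.Obj) : Prop :=
  ∀ (i j : ℕ) (V : Subspace W Y), IsEffective Φ i j V → Within V (coniveau W j Y)

/-- The projection of `X ^ (n + 1)` to the factor with the number `i`. -/
noncomputable def coord (X : 𝒱.Obj) : ∀ n, Fin (n + 1) → (pw X n ⟶ X)
  | 0, _ => 𝟙 X
  | n + 1, i => Fin.cases (fst X (pw X n)) (fun j => snd X (pw X n) ≫ coord X n j) i

/-- The morphism `f` is the projection to the product of the factors `e 0, ..., e a`. -/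
def IsProjection {X : 𝒱.Obj} {n a : ℕ} (e : Fin (a + 1) → Fin (n + 1)) (f : pw X n ⟶ pw X a) :
    Prop :=
  ∀ i, f ≫ coord X a i = coord X n (e i)

/-- The class `x` lies in a subspace `V` of `H^i(Y)` which is stable under the Frobenius endomorphism
over a finite field, with `V(c)` effective. -/
def InEffective (Φ : FrobSystem W p) {Y : 𝒱.Obj} (i c : ℕ) (x : W.H Y) : Prop :=
  ∃ V : Subspace W Y, IsEffective Φ i c V ∧ Mem V x

/-- Let `f` and `g` be morphisms from `X ^ (n + 1)` to `X ^ (a + 1)` and `X ^ (b + 1)`. The class `x` on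
`Z × X ^ (n + 1)` is the product of the pull-backs under `id × f` and `g` of classes `v` and `w` which lie
in subspaces `V'` of `H^i'(Z × X ^ (a + 1))` and `V''` of `H^i''(X ^ (b + 1))` with `V'(c')` and
`V''(c'')` effective, where `i' + i'' = i` and `c' + c'' = c`. -/
def IsProductOf (Φ : FrobSystem W p) (Z : 𝒱.Obj) {X : 𝒱.Obj} {n a b : ℕ} (f : pw X n ⟶ pw X a)
    (g : pw X n ⟶ pw X b) (i c : ℕ) (x : W.H (Z.prod (pw X n))) : Prop :=
  ∃ (i' i'' c' c'' : ℕ) (v : W.H (Z.prod (pw X a))) (w : W.H (pw X b)),
    i' + i'' = i ∧ c' + c'' = c ∧ InEffective Φ i' c' v ∧ InEffective Φ i'' c'' w ∧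
    x = mulApp (W.map (Obj.lift (fst Z (pw X n)) (snd Z (pw X n) ≫ f)))
      (W.map (snd Z (pw X n) ≫ g)) v w

/-- The class `x` on `Z × X ^ (n + 1)` is an exterior product as in `IsProductOf`, for the projections
belonging to a partition of the set of the `n + 1` factors `X` into the nonempty sets
`{e 0, ..., e a}` and `{e' 0, ..., e' b}`. -/
def IsExteriorProduct (Φ : FrobSystem W p) (Z X : 𝒱.Obj) (n i c : ℕ)
    (x : W.H (Z.prod (pw X n))) : Prop :=
  ∃ (a b : ℕ) (e : Fin (a + 1) → Fin (n + 1)) (e' : Fin (b + 1) → Fin (n + 1))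
    (f : pw X n ⟶ pw X a) (g : pw X n ⟶ pw X b), Function.Bijective (Sum.elim e e') ∧
    IsProjection e f ∧ IsProjection e' g ∧ IsProductOf Φ Z f g i c x

/-- There are no new effective twists on `Z × X ^ (n + 1)`: every subspace `V` of
`H^i(Z × X ^ (n + 1))` as in `IsEffective` is contained in the span of the exterior products of
classes in such subspaces of `H^i'(Z × X ^ (a + 1))` and `H^i''(X ^ (b + 1))`, for the coniveaus `c'`
and `c''`, where `i' + i'' = i`, `c' + c'' = c` and `a + b + 2 = n + 1`. -/
def NoNewEffective (Φ : FrobSystem W p) (Z X : 𝒱.Obj) (n : ℕ) : Prop :=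
  ∀ (i c : ℕ) (V : Subspace W (Z.prod (pw X n))), IsEffective Φ i c V →
    Within V (spanOf W.K (IsExteriorProduct Φ Z X n i c))

/-- The number `N = N(b, D, e)`, where `b` is the total Betti number of `X` and `e` is the dimension
of `Z`. -/
noncomputable def maxPower (W : WeilCohomology.{u, v} ops) (Z X : 𝒱.Obj) (D : ℕ) : ℕ :=
  bound (Module.finrank W.K (W.H X)) D Z.dim

/-- Tate classes: `x` lies in `H^(2 j)(Y)` and the Frobenius endomorphism over some finite field, with
`q` elements, acts on it as multiplication by `q ^ j`. -/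
def IsTateClass (Φ : FrobSystem W p) (Y : 𝒱.Obj) (j : ℕ) (x : W.H Y) : Prop :=
  Mem (W.gr Y (2 * j)) x ∧ ∃ s, 0 < s ∧ IsEigen (frobenius Φ Y s) ((card Φ Y s : W.K) ^ j) x

/-- `Y` is dominated by `Y'`: there are a morphism `f` from `Y'` to `Y` and a Tate class `c` on `Y'`
whose image under the Gysin homomorphism of `f` is `1`. (For a surjective morphism of smooth
projective varieties a multiple of a power of the class of an ample divisor has this property.) -/
def IsDominated (Φ : FrobSystem W p) (Y' Y : 𝒱.Obj) : Prop :=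
  ∃ (f : Y' ⟶ Y) (j : ℕ) (c : W.H Y'), IsTateClass Φ Y' j c ∧ app (W.push f) c = 1

/-- The classes of the cycles of codimension `j` lie in `N^j`. (The class of a subvariety is the
image of a multiple of `1` under the Gysin homomorphism of an alteration.) -/
def CyclesHaveConiveau (W : WeilCohomology.{u, v} ops) : Prop :=
  ∀ (Y : 𝒱.Obj) (j : ℕ) (z : Y.Cycles), Y.IsCyc j z → Mem (coniveau W j Y) (W.cl Y z)

/-- The theorem of Honda and Tate for the set `𝒜` of (abelian) varieties: if `ϖ` is an algebraic
integer, in an algebraic closure of the coefficient field, all of whose conjugates have the absolute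
value `p ^ (a / 2)`, `a > 0`, then a power `ϖ ^ r`, `r > 0`, is an eigenvalue on `H^1(A)` of the
Frobenius endomorphism over the field with `p ^ (a r)` elements, for some `A` in `𝒜`. -/
def HondaTate (Φ : FrobSystem W p) (𝒜 : Set 𝒱.Obj) : Prop :=
  ∀ (a : ℕ) (ϖ : AlgebraicClosure W.K), 0 < a → IsWeil p a ϖ →
    ∃ A ∈ 𝒜, ∃ r t : ℕ, 0 < r ∧ 0 < t ∧ card Φ A t = p ^ (a * r) ∧
      IsRootOf (charpolyOn (frobenius Φ A t) (W.gr A 1)) (ϖ ^ r)

/-- The class `x` is the class of a cycle of codimension `j`. -/
def IsCycleClass (W : WeilCohomology.{u, v} ops) (Y : 𝒱.Obj) (j : ℕ) (x : W.H Y) : Prop :=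
  ∃ z : Y.Cycles, Y.IsCyc j z ∧ x = W.cl Y z

/-- The Tate conjecture and semisimplicity for `Y`, in all codimensions: if `x` in `H^(2 j)(Y)` is a
generalised eigenvector of the Frobenius endomorphism over a finite field, with `q` elements, for the
eigenvalue `q ^ j`, then it is a linear combination of classes of cycles of codimension `j`. -/
def SemisimpleTate (Φ : FrobSystem W p) (Y : 𝒱.Obj) : Prop :=
  ∀ (j s : ℕ) (x : W.H Y), 0 < s → Mem (W.gr Y (2 * j)) x →
    IsGenEigen (frobenius Φ Y s) ((card Φ Y s : W.K) ^ j) x →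
    Mem (spanOf W.K (IsCycleClass W Y j)) x

/-- The Tate conjecture and semisimplicity for the products `A ^ (m + 1) × Y`, for all `A` in `𝓕` and
all `m` from `0` to `2 dim Y`. -/
def TateWith (Φ : FrobSystem W p) (𝓕 : Set 𝒱.Obj) (Y : 𝒱.Obj) : Prop :=
  ∀ A ∈ 𝓕, ∀ m ≤ 2 * Y.dim, SemisimpleTate Φ ((pw A m).prod Y)

/-- The generalized Tate conjecture for all products `Z × X ^ (n + 1)` and for all varieties which are
dominated by them. -/
def GTCForAllPowers (Φ : FrobSystem W p) (Z X : 𝒱.Obj) : Prop :=
  ∀ n, GTC Φ (Z.prod (pw X n)) ∧ ∀ Y, IsDominated Φ (Z.prod (pw X n)) Y → GTC Φ Y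

end Pool.Agent.N204.GT
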