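import Pool.Agent.N204.GT.Trans
import Pool.Agent.N204.GT.Defs
import Pool.Agent.N204.GH.Fin

/-!
# Bounded generation for the generalized Tate conjecture: the theorems
-/

set_option linter.unusedVariables false
set_option linter.unusedSectionVars false

open CategoryTheory AlgebraicGeometry CategoryTheory.Limits TensorProduct

universe u v

namespace Pool.Agent.N204.GT

open Pool.Agent.H914 Pool.Agent.H447 Pool.Agent.W534 Pool.Agent.Y163 VarClass Obj WeilCohomology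
  Module Polynomial
open Pool.Agent.R940 hiding mem_of_baseChange
open Pool.Agent.N204.GH (cv push_cv bij_of_perm)

variable {k : Type u} [Field k] {𝒱 : VarClass k} {ops : CycleOps 𝒱}
  {W : WeilCohomology.{u, v} ops} {X Y Y' Z U S : 𝒱.Obj} {p : ℕ}
  {Φ : FrobSystem W p} {σ : W.K →+* ℂ}

lemma coniveau_eq (j : ℕ) (Y : 𝒱.Obj) : coniveau W j Y = cv W j Y := rfl

lemma eff_iff {i c : ℕ} {V : Subspace W Y} :
    IsEffective Φ i c V ↔ Eff (AlgebraicClosure W.K) Φ i c V := Iff.rfl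

lemma gtc_iff' : GTC Φ Y ↔ GTCL (AlgebraicClosure W.K) Φ Y := Iff.rfl

lemma coord_eq' (X : 𝒱.Obj) : ∀ (n : ℕ) (i : Fin (n + 1)), coord X n i = pr X n i
  | 0, i => rfl
  | n + 1, i => by
    refine Fin.cases ?_ (fun j => ?_) i
    · rfl
    · exact congrArg (fun f => snd X (pw X n) ≫ f) (coord_eq' X n j)

lemma isProjection_iff {X : 𝒱.Obj} {n a : ℕ} {e : Fin (a + 1) → Fin (n + 1)} {f : pw X n ⟶ pw X a} :
    IsProjection e f ↔ f = proj X e := by
  constructor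
  · intro h
    apply pw_hom_ext
    intro i
    have h1 := h i
    rw [coord_eq', coord_eq'] at h1
    rw [h1, proj_eq, tup_pr]
  · rintro rfl i
    rw [coord_eq', coord_eq', proj_eq, tup_pr]

lemma ext_of {n i c : ℕ} {x : W.H (Z.prod (pw X n))}
    (h : ExtL (AlgebraicClosure W.K) Φ Z X n i c x) : IsExteriorProduct Φ Z X n i c x := by
  obtain ⟨a, b, e, e', i', i'', c', c'', V', V'', v, w, h1, h2, h3, h4, h5, h6, h7, h8⟩ := h
  refine ⟨a, b, e, e', proj X e, proj X e', bij_of_perm h1, isProjection_iff.2 rfl,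
    isProjection_iff.2 rfl, i', i'', c', c'', v, w, h2, h3, ⟨V', h4, h6⟩, ⟨V'', h5, h7⟩, ?_⟩
  rw [h8]
  change W.map (projZ Z X e) v * W.map (snd Z (pw X n)) (W.map (proj X e') w) =
    W.map (projZ Z X e) v * W.map (snd Z (pw X n) ≫ proj X e') w
  rw [W.map_comp (snd Z (pw X n)) (proj X e')]

lemma semi_of {Y : 𝒱.Obj} (h : SemisimpleTate Φ Y) (j : ℕ) : SemisimpleTateIn Φ Y j := by
  intro s hs x hx
  have h1 := h j s x hs hx.2 ((Module.End.mem_maxGenEigenspace _ _ _).1 hx.1)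
  refine Submodule.span_mono ?_ h1
  rintro _ ⟨z, hz, rfl⟩
  exact ⟨j, rfl, z, hz, rfl⟩

lemma dom_of (h : IsDominated Φ Y' Y) : Dom Φ Y' Y := by
  obtain ⟨f, j, c, ⟨h1, s, hs, h2⟩, h3⟩ := h
  refine ⟨f, j, c, ⟨h1, s, hs, ?_⟩, h3⟩
  have h4 : W.map (W534.iter (Φ.Fr Y') s) c = ((card Φ Y' s : W.K) ^ j) • c := h2
  rw [h4, card_pow]

theorem main [Fact p.Prime] (hW : ∀ Y, WeilConjectures Φ σ Y) (hX : HasBigDivisor ops X)
    (hZ : HasBigDivisor ops Z) {D : ℕ} (hD : IsSlopeDenominator Φ σ X D) :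
    (∀ n, maxPower W Z X D < n + 1 → NoNewEffective Φ Z X n) ∧
    (GTC Φ (Z.prod (pw X (maxPower W Z X D - 1))) → GTCForAllPowers Φ Z X) ∧
    (CyclesHaveConiveau W → ∀ 𝒜, HondaTate Φ 𝒜 → ∃ 𝓕 : Set 𝒱.Obj, 𝓕 ⊆ 𝒜 ∧ 𝓕.Finite ∧
      (TateWith Φ 𝓕 (Z.prod (pw X (maxPower W Z X D - 1))) → GTCForAllPowers Φ Z X)) := by
  obtain ⟨E, hE, hbig⟩ := hX
  obtain ⟨F, hF, hbigZ⟩ := hZ
  have h2 : GTC Φ (Z.prod (pw X (maxPower W Z X D - 1))) → GTCForAllPowers Φ Z X := by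
    intro h n
    have h3 : GTCL (AlgebraicClosure W.K) Φ (Z.prod (pw X n)) :=
      gtc_red (hW X).1 (hW Z).1 (hW X).2 (hW Z).2 hE hbig hF hbigZ hD h n
    exact ⟨h3, fun Y hY => GTCL.of_dom (dom_of hY) h3⟩
  refine ⟨fun n hn i c V hV => ?_, h2, fun hcyc 𝒜 hA => ?_⟩
  · refine (gtc_split (hW X).1 (hW Z).1 (hW X).2 (hW Z).2 hE hbig hD hn hV).trans
      (Submodule.span_mono fun x hx => ext_of hx)
  · obtain ⟨𝓕, h4, h5, h6⟩ := gtc_of_tate (L := AlgebraicClosure W.K)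
      (Y := Z.prod (pw X (maxPower W Z X D - 1))) hcyc (hW _).1 (hW _).2 hA
    exact ⟨𝓕, h4, h5, fun h => h2 (h6 fun A hA m hm => semi_of (h A hA m hm))⟩

end Pool.Agent.N204.GT
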