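import Pool.Agent.N204.GT.Split
import Pool.Agent.N204.GH.Main
import Pool.Agent.R940.ZFin

/-!
# The generalized Tate conjecture in terms of generalised eigenvectors
-/

set_option linter.unusedVariables false
set_option linter.unusedSectionVars false

open CategoryTheory AlgebraicGeometry CategoryTheory.Limits

universe u v

namespace Pool.Agent.N204.GT

open Pool.Agent.H914 Pool.Agent.H447 Pool.Agent.W534 Pool.Agent.Y163 VarClass Obj WeilCohomology
  Module Polynomial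
open Pool.Agent.R940
open Pool.Agent.N204.Ray (lenBound)
open Pool.Agent.N204.GH (cv push_cv ext_mem_cv bij_of_perm cv_anti)

variable {k : Type u} [Field k] {𝒱 : VarClass k} {ops : CycleOps 𝒱}
  {W : WeilCohomology.{u, v} ops} {X Y Y' Z U S : 𝒱.Obj} {p : ℕ}
  [hp : Fact p.Prime] {Φ : FrobSystem W p} {σ : W.K →+* ℂ}

/-- The generalized Tate conjecture in terms of generalised eigenvectors. -/
def GC (Φ : FrobSystem W p) (Y : 𝒱.Obj) : Prop := ∀ i ν (x : W.H Y), Cn Φ Y i ν x → x ∈ cv W ν Y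

/-- Domination. -/
def Dom (Φ : FrobSystem W p) (Y' Y : 𝒱.Obj) : Prop :=
  ∃ (f : Y' ⟶ Y) (j : ℕ) (c : W.H Y'), IsTate Φ Y' j c ∧ W.push f c = 1

lemma dim_of_push [Nontrivial (W.H Y)] {f : Y' ⟶ Y} {j : ℕ} {c : W.H Y'}
    (hc : c ∈ W.gr Y' (2 * j)) (h1 : W.push f c = 1) : Y'.dim = Y.dim + j := by
  have h2 := W.push_mem f hc
  rw [h1] at h2
  by_cases h3 : (0 : ℤ) ≤ ((2 * j : ℕ) : ℤ) + 2 * ((Y.dim : ℤ) - Y'.dim)
  · obtain ⟨l, hl⟩ := Int.eq_ofNat_of_zero_le h3
    rw [hl, grZ_natCast] at h2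
    have h4 : l = 0 := by
      by_contra hne
      have h7 := (W.isInternal Y).submodule_iSupIndep.pairwiseDisjoint hne
      exact one_ne_zero ((Submodule.disjoint_def.1 h7) _ h2 (W.one_mem Y))
    rw [h4] at hl
    push_cast at hl
    omega
  · rw [grZ_of_neg (not_le.1 h3), Submodule.mem_bot] at h2
    exact absurd h2 one_ne_zero

/-- The product of the pull-back with a Tate class. -/
lemma Cn_mul (f : Y' ⟶ Y) {j : ℕ} {c : W.H Y'} (hc : IsTate Φ Y' j c) {i ν : ℕ} {x : W.H Y}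
    (hx : Cn Φ Y i ν x) : Cn Φ Y' (i + 2 * j) (ν + j) (c * W.map f x) := by
  obtain ⟨hcg, s₀, hs₀, hc⟩ := hc
  obtain ⟨s, α, hs, hα, hE, hgr⟩ := hx
  obtain ⟨a, b, ha, hb, hab, h⟩ := frob_comm (W := W) Φ f
  have hpK : (p : W.K) ≠ 0 := Nat.cast_ne_zero.2 hp.out.ne_zero
  refine ⟨a * s * s₀, ((p : W.K) ^ (Φ.e Y' * s₀ * j)) ^ (a * s) * α ^ (b * s₀), by positivity, ?_, ?_,
    by rw [add_comm i]; exact W.mul_mem hcg (W.map_mem f hgr)⟩
  · have e1 : ((p : W.K) ^ (Φ.e Y' * s₀ * j)) ^ (a * s) * α ^ (b * s₀) /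
        (p : W.K) ^ (Φ.e Y' * (a * s * s₀) * (ν + j)) =
        (α / (p : W.K) ^ (Φ.e Y * s * ν)) ^ (b * s₀) := by
      have e2 : (p : W.K) ^ (Φ.e Y' * (a * s * s₀) * (ν + j)) =
          ((p : W.K) ^ (Φ.e Y' * s₀ * j)) ^ (a * s) * ((p : W.K) ^ (Φ.e Y * s * ν)) ^ (b * s₀) := by
        rw [← pow_mul, ← pow_mul, ← pow_add]
        congr 1
        calc Φ.e Y' * (a * s * s₀) * (ν + j) =
            Φ.e Y' * s₀ * j * (a * s) + (a * Φ.e Y') * (s * s₀ * ν) := by ring
          _ = _ := by rw [hab]; ring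
      rw [e2, div_pow, mul_div_mul_left _ _ (pow_ne_zero _ (pow_ne_zero _ hpK))]
    rw [e1]
    exact hα.pow _
  · refine gen_bilin (β := LinearMap.mul W.K (W.H Y'))
      (fun a b => (frob_mul' Φ _ a b).symm) ?_ ?_
    · have h1 : c ∈ Eg false (frob Φ Y' s₀) ((p : W.K) ^ (Φ.e Y' * s₀ * j)) := mem_Eg_false.2 hc
      have h2 := Eg_le _ _ _ (Eg_pow h1 (a * s))
      rwa [← frob_mul_eq, show s₀ * (a * s) = a * s * s₀ by ring] at h2
    · refine gen_semi (f := frob Φ Y (b * (s * s₀))) (θ := (W.map f).toLinearMap) (fun y => ?_) ?_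
      · rw [mul_assoc a s s₀]
        exact h (s * s₀) y
      · have h3 := gen_mono _ _ (b * s₀) hE
        rwa [← frob_mul_eq, show s * (b * s₀) = b * (s * s₀) by ring] at h3

/-- **The generalized Tate conjecture passes to dominated varieties.** -/
theorem GC.of_dom (h : Dom Φ Y' Y) (hY : GC Φ Y') : GC Φ Y := by
  rcases subsingleton_or_nontrivial (W.H Y) with hs | hn
  · intro i j x _
    rw [Subsingleton.elim x 0]
    exact Submodule.zero_mem _
  obtain ⟨f, j, c, hc, h1⟩ := h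
  have hd := dim_of_push hc.1 h1
  intro i l x hx
  have h4 := hY _ _ _ (Cn_mul f hc hx)
  have h5 := push_cv (W := W) f (show Y'.dim + l ≤ Y.dim + (l + j) by omega) h4
  rwa [W.push_mul, h1, one_mul] at h5

/-- The class of a point. -/
lemma exists_point {E : X.Cycles} (hE : X.IsCyc 1 E) (hbig : Big ops X E) :
    ∃ q : W.H X, IsTate Φ X X.dim q ∧ W.tr X q = 1 := by
  have htr : W.tr X (W.cl X E ^ X.dim) ≠ 0 := hbig.tr hE
  have h1 := divPow_fund_mem (ops := ops) hE X.dim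
  obtain ⟨s, hs, h2⟩ := Φ.cyc h1
  rw [cl_divPow_fund] at h2
  refine ⟨(W.tr X (W.cl X E ^ X.dim))⁻¹ • W.cl X E ^ X.dim,
    ⟨Submodule.smul_mem _ _ (Y163.pow_mem_gr hE _), s, hs, ?_⟩, ?_⟩
  · rw [map_smul, h2, smul_comm]
  · rw [map_smul, smul_eq_mul, inv_mul_cancel₀ htr]

lemma isTate_pull (f : Y' ⟶ Y) {j : ℕ} {c : W.H Y} (hc : IsTate Φ Y j c) :
    IsTate Φ Y' j (W.map f c) := by
  obtain ⟨hcg, s, hs, h1⟩ := hc
  obtain ⟨a, b, ha, hb, hab, h⟩ := frob_comm (W := W) Φ f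
  refine ⟨W.map_mem f hcg, a * s, Nat.mul_pos ha hs, ?_⟩
  rw [h s c, W534.frob_mul' Φ h1 b, map_smul]
  congr 2
  calc Φ.e Y * (b * s) * j = (b * Φ.e Y) * (s * j) := by ring
    _ = (a * Φ.e Y') * (s * j) := by rw [hab]
    _ = _ := by ring

/-- The second factor of a product is dominated by the product. -/
lemma dom_snd (Y : 𝒱.Obj) {E : Z.Cycles} (hE : Z.IsCyc 1 E) (hbig : Big ops Z E) :
    Dom Φ (Z.prod Y) Y := by
  obtain ⟨q, hq, h1⟩ := exists_point (Φ := Φ) (W := W) hE hbig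
  refine ⟨snd Z Y, Z.dim, W.map (fst Z Y) q, isTate_pull _ hq, ?_⟩
  rw [W.push_snd', h1, one_smul]

/-- The omission of a factor. -/
lemma dom_mid (Z X U : 𝒱.Obj) {E : X.Cycles} (hE : X.IsCyc 1 E) (hbig : Big ops X E) :
    Dom Φ (Z.prod (X.prod U)) (Z.prod U) := by
  obtain ⟨q, hq, h1⟩ := exists_point (Φ := Φ) (W := W) hE hbig
  refine ⟨Obj.lift (fst Z (X.prod U)) (snd Z (X.prod U) ≫ snd X U), X.dim,
    W.map (snd Z (X.prod U) ≫ fst X U) q, isTate_pull _ hq, ?_⟩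
  apply W.tr_ext
  intro c
  rw [W.tr_push, one_mul]
  refine W.kunneth_induction (p := fun c => W.tr _ (W.map (snd Z (X.prod U) ≫
    fst X U) q * W.map (Obj.lift (fst Z (X.prod U)) (snd Z (X.prod U) ≫
    snd X U)) c) = W.tr _ c) ?_ ?_ c
  · intro a b ha hb
    rw [map_add, mul_add, map_add, map_add, ha, hb]
  · intro i l a ha b hb
    have hpe : W.map (fst X U) q ∈ W.gr (X.prod U) (2 * X.dim) := W.map_mem _ hq.1
    have e1 : W.map (snd Z (X.prod U) ≫ fst X U) q *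
        W.map (Obj.lift (fst Z (X.prod U)) (snd Z (X.prod U) ≫ snd X U))
          (W.map (fst Z U) a * W.map (snd Z U) b) =
        W.map (fst Z (X.prod U)) a * W.map (snd Z (X.prod U))
          (W.map (fst X U) q * W.map (snd X U) b) := by
      rw [map_mul (W.map (Obj.lift _ _)), ← W.map_comp, ← W.map_comp, Obj.lift_fst,
        Obj.lift_snd, map_mul (W.map (snd Z (X.prod U))), W.map_comp, W.map_comp,
        ← mul_assoc, W.even_comm (W.map_mem (snd Z (X.prod U)) hpe), mul_assoc]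
    rw [e1, W.tr_prod, W.tr_prod, h1, one_mul, W.tr_prod]

lemma GC.down {E : X.Cycles} (hE : X.IsCyc 1 E) (hbig : Big ops X E) {m M : ℕ} (h : m ≤ M)
    (hM : GC Φ (Z.prod (pw X M))) : GC Φ (Z.prod (pw X m)) := by
  induction M, h using Nat.le_induction with
  | base => exact hM
  | succ M _ ih => exact ih (hM.of_dom (dom_mid Z X (pw X M) hE hbig))

/-- The number `N = N(b, D, e)`. -/
def gtcBound (b D e : ℕ) : ℕ :=
  D * (b * ((b + 3) * ((b + 1).factorial * ((2 * D * b) ^ b * (2 * e + 2 * D * b ^ 2)))) + b)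

lemma gtcBound_eq (b D e : ℕ) : gtcBound b D e =
    D * (lenBound b (2 * D * b) (2 * e + b * (2 * D * b)) + b) := by
  rw [gtcBound, lenBound]
  congr 6
  ring

/-- **Splitting on large powers.** -/
theorem splitN [IsAlgClosed W.K] (hRHX : RiemannHyp Φ σ X) (hRHZ : RiemannHyp Φ σ Z)
    (hX : HasIntegralPolys Φ σ X) (hZ : HasIntegralPolys Φ σ Z) {E : X.Cycles} (hE : X.IsCyc 1 E)
    (hbig : Big ops X E) {D : ℕ} (hD : IsSlopeDenominator Φ σ X D) {n : ℕ}
    (hn : gtcBound (finrank W.K (W.H X)) D Z.dim < n + 1) {i ν : ℕ}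
    {c : W.H (Z.prod (pw X n))} (hc : Cn Φ (Z.prod (pw X n)) i ν c) :
    c ∈ Submodule.span W.K {x | IsExtC Φ Z X n i ν x} := by
  classical
  obtain ⟨ι, hfin, B, lam, hB⟩ := exists_ebasis Φ X
  have hft : Fintype ι := Fintype.ofFinite ι
  have hcard : Fintype.card ι = finrank W.K (W.H X) := (Module.finrank_eq_card_basis B.b).symm
  have hdim := dim_lt hE (hbig.tr (W := W) hE)
  have hb : 0 < finrank W.K (W.H X) := by omega
  set b := finrank W.K (W.H X) with hbdef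
  have hM1 : 1 ≤ 2 * D * b := Nat.mul_pos (Nat.mul_pos two_pos hD.1) hb
  refine splitC (M := 2 * D * b) (R := 2 * Z.dim + b * (2 * D * b)) hRHZ hZ hB hD.1
    (weilFamily hB hRHX hX hD) hM1 (fun l => ?_)
    (le_trans (Nat.mul_pos hb hM1) (Nat.le_add_left _ _)) (by rw [hcard]) ?_ hc
  · calc D * B.deg l ≤ D * (2 * b) := Nat.mul_le_mul_left _ ((deg_le B l).trans (by omega))
      _ = 2 * D * b := by ring
  · rw [hcard, ← gtcBound_eq]
    exact hn

/-- **Reduction of the generalized Tate conjecture.** -/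
theorem GC_red [IsAlgClosed W.K] (hRHX : RiemannHyp Φ σ X) (hRHZ : RiemannHyp Φ σ Z)
    (hX : HasIntegralPolys Φ σ X) (hZ : HasIntegralPolys Φ σ Z) {E : X.Cycles} (hE : X.IsCyc 1 E)
    (hbig : Big ops X E) {F : Z.Cycles} (hF : Z.IsCyc 1 F) (hbigZ : Big ops Z F)
    {D : ℕ} (hD : IsSlopeDenominator Φ σ X D)
    (h : GC Φ (Z.prod (pw X (gtcBound (finrank W.K (W.H X)) D Z.dim - 1)))) (n : ℕ) :
    GC Φ (Z.prod (pw X n)) := by
  induction n using Nat.strong_induction_on with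
  | _ n ih =>
  rcases Nat.lt_or_ge (gtcBound (finrank W.K (W.H X)) D Z.dim) (n + 1) with hlt | hge
  · intro i j c hc
    have h1 := splitN hRHX hRHZ hX hZ hE hbig hD hlt hc
    refine (Submodule.span_le.2 ?_) h1
    rintro _ ⟨a, b, e, e', i', i'', c', c'', v, w, g1, g2, g3, g4, g5, rfl⟩
    have hab : a + 1 + (b + 1) = n + 1 := by
      have := g1.length_eq
      rwa [List.length_append, List.length_ofFn, List.length_ofFn, List.length_finRange] at this
    have hv : v ∈ cv W c' _ := ih a (by omega) i' c' v g4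
    have hw : w ∈ cv W c'' _ := (ih b (by omega)).of_dom (dom_snd _ hF hbigZ) i'' c'' w g5
    rw [← g3]
    exact ext_mem_cv (W := W) (bij_of_perm g1) hv hw
  · exact GC.down hE hbig (by omega) h

end Pool.Agent.N204.GT
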