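import Pool.Agent.R940.Tor
import Pool.Agent.N204.Ray.Split

/-!
# The inequalities between Newton slopes which express the divisibility of products of Weil numbers
-/

namespace Pool.Agent.N204.GT

open Polynomial Finset IntermediateField
open Pool.Agent.R940
open Pool.Agent.N204.Ray (lenBound cone_split)

section Val

variable {E : Type*} [Field E] [CharZero E]

/-- Integrality in terms of the absolute values. -/
lemma int_iff [Algebra.IsAlgebraic ℚ E] (y : E) : IsIntegral ℤ y ↔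
    ∀ (l : ℕ) [Fact l.Prime] (ψ : E →ₐ[ℚ] PadicAlgCl l), ‖ψ y‖ ≤ 1 := by
  constructor
  · intro h l _ ψ
    exact padic_integral (h.map (ψ.restrictScalars ℤ))
  · intro h
    apply isIntegral_of_padic (Algebra.IsAlgebraic.isAlgebraic y)
    intro l _ z hz
    have h1 := Algebra.IsAlgebraic.range_eval_eq_rootSet_minpoly (PadicAlgCl l) y (F := ℚ)
    have h2 : z ∈ (minpoly ℚ y).rootSet (PadicAlgCl l) := by
      rw [mem_rootSet]
      exact ⟨minpoly.ne_zero (Algebra.IsAlgebraic.isAlgebraic y).isIntegral, hz⟩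
    rw [← h1] at h2
    obtain ⟨ψ, rfl⟩ := h2
    exact h l ψ

variable {p : ℕ} [hp : Fact p.Prime]

lemma log_p_pos : 0 < Real.log p := Real.log_pos (by exact_mod_cast hp.out.one_lt)

lemma norm_p : ‖(p : PadicAlgCl p)‖ = (p : ℝ)⁻¹ := by
  have h : ((p : ℚ_[p]) : PadicAlgCl p) = (p : PadicAlgCl p) :=
    map_natCast (algebraMap ℚ_[p] (PadicAlgCl p)) p
  rw [← h, PadicAlgCl.norm_extends, Padic.norm_p]

lemma div_nonneg_iff' {a b : ℝ} (hb : 0 < b) : 0 ≤ a / b ↔ 0 ≤ a := by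
  constructor
  · intro h
    by_contra hcon
    exact absurd h (not_le.2 (div_neg_of_neg_of_pos (not_le.1 hcon) hb))
  · intro h
    exact div_nonneg h hb.le

/-- The valuation attached to an embedding, with the value one at `p`. -/
noncomputable def vl (ψ : E →ₐ[ℚ] PadicAlgCl p) (x : E) : ℝ := -Real.log ‖ψ x‖ / Real.log p

variable (ψ : E →ₐ[ℚ] PadicAlgCl p)

lemma vl_mul {x y : E} (hx : x ≠ 0) (hy : y ≠ 0) : vl ψ (x * y) = vl ψ x + vl ψ y := by
  rw [vl, vl, vl, map_mul, norm_mul, Real.log_mul (norm_ne_zero_iff.2 ((map_ne_zero ψ).2 hx))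
    (norm_ne_zero_iff.2 ((map_ne_zero ψ).2 hy))]
  ring

lemma vl_pow (x : E) (n : ℕ) : vl ψ (x ^ n) = n * vl ψ x := by
  rw [vl, vl, map_pow, norm_pow, Real.log_pow]
  ring

lemma vl_div {x y : E} (hx : x ≠ 0) (hy : y ≠ 0) : vl ψ (x / y) = vl ψ x - vl ψ y := by
  have h := vl_mul ψ (div_ne_zero hx hy) hy
  rw [div_mul_cancel₀ x hy] at h
  linarith

lemma vl_prod {ι : Type*} (s : Finset ι) (f : ι → E) (hf : ∀ i ∈ s, f i ≠ 0) :
    vl ψ (∏ i ∈ s, f i) = ∑ i ∈ s, vl ψ (f i) := by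
  classical
  induction s using Finset.induction_on with
  | empty => simp [vl]
  | insert a s ha ih =>
    rw [Finset.prod_insert ha, Finset.sum_insert ha, vl_mul ψ (hf a (Finset.mem_insert_self a s))
      (Finset.prod_ne_zero_iff.2 fun i hi => hf i (Finset.mem_insert_of_mem hi)),
      ih fun i hi => hf i (Finset.mem_insert_of_mem hi)]

lemma vl_p : vl ψ (p : E) = 1 := by
  rw [vl, map_natCast, norm_p, Real.log_inv, neg_neg, div_self log_p_pos.ne']

lemma vl_nonneg {x : E} (hx : x ≠ 0) : 0 ≤ vl ψ x ↔ ‖ψ x‖ ≤ 1 := by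
  have h0 : 0 < ‖ψ x‖ := norm_pos_iff.2 ((map_ne_zero ψ).2 hx)
  rw [vl, div_nonneg_iff' log_p_pos, neg_nonneg, Real.log_nonpos_iff h0.le]

end Val

section

variable {K ι : Type*} [Field K] [CharZero K] {p : ℕ} [hp : Fact p.Prime] {e₁ e₂ D : ℕ}
  {lam : ι → K} {deg : ι → ℕ} [Fintype ι]

/-- The divisibility relation: `μ` is an eigenvalue of the Frobenius endomorphism over the field with
`p ^ (e₂ t)` elements, the `lam l` are eigenvalues over the field with `p ^ e₁` elements, `c` are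
numbers of occurrences and `ν` the coniveau. -/
def CN (p e₁ e₂ : ℕ) (lam : ι → K) (μ : K) (t : ℕ) (c : ι → ℕ) (ν : ℕ) : Prop :=
  IsIntegral ℤ ((μ ^ e₁ * (∏ l, lam l ^ c l) ^ (e₂ * t)) / (p : K) ^ (e₁ * e₂ * t * ν))

/-- **Splitting of long divisible products.** -/
theorem cone_sub (he₁ : 0 < e₁) (he₂ : 0 < e₂) (hD : 0 < D) (h : IsWeilFamily p e₁ D lam deg)
    {B R : ℕ} (hB1 : 1 ≤ B) (hB : ∀ l, D * deg l ≤ B) (hR1 : 1 ≤ R) {w : ℕ}
    (hR : w + Fintype.card ι * B ≤ R) {μ : K} {t : ℕ} (ht : 0 < t) (hμ : IsIntegral ℤ μ)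
    (hμ0 : μ ≠ 0) (hμ' : IsIntegral ℤ (((p : K) ^ (e₂ * t)) ^ w / μ)) {c : ι → ℕ} {ν : ℕ}
    (hc : CN p e₁ e₂ lam μ t c ν)
    (hN : D * (lenBound (Fintype.card ι) B R + Fintype.card ι) < ∑ l, c l) :
    ∃ (m : ι → ℕ) (v : ℕ), (∀ l, m l ≤ c l) ∧ v ≤ ν ∧ 0 < ∑ l, m l ∧ ∑ l, m l < ∑ l, c l ∧
      CN p e₁ e₂ lam 1 1 m v ∧ CN p e₁ e₂ lam μ t (c - m) (ν - v) := by
  classical
  -- the field
  let lam' : Option ι → K := fun o => o.elim μ lam
  have hint' : ∀ o, IsIntegral ℤ (lam' o) := by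
    rintro (_ | l)
    · exact hμ
    · exact h.int l
  let E := EF lam'
  have hfd : FiniteDimensional ℚ (EF lam') := by
    apply finiteDimensional_adjoin
    rintro _ ⟨o, rfl⟩
    exact (hint' o).tower_top
  have halg : Algebra.IsAlgebraic ℚ (EF lam') := inferInstance
  let x : ι → E := fun l => el lam' (some l)
  let y : E := el lam' none
  have hxK : ∀ l, algebraMap E K (x l) = lam l := fun l => rfl
  have hyK : algebraMap E K y = μ := rfl
  have hl0 : ∀ l, lam l ≠ 0 := by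
    intro l h0
    exact el_ne_zero he₁ h l (Subtype.ext h0)
  have hx0 : ∀ l, x l ≠ 0 := fun l h0 => hl0 l (by rw [← hxK, h0, map_zero])
  have hy0 : y ≠ 0 := fun h0 => hμ0 (by rw [← hyK, h0, map_zero])
  have hp0 : (p : K) ≠ 0 := Nat.cast_ne_zero.2 hp.out.ne_zero
  have hpE : (p : E) ≠ 0 := Nat.cast_ne_zero.2 hp.out.ne_zero
  have hdown : ∀ z : E, IsIntegral ℤ (algebraMap E K z) ↔ IsIntegral ℤ z := fun z =>
    isIntegral_algebraMap_iff (algebraMap E K).injective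
  have hxi : ∀ l, IsIntegral ℤ (x l) := fun l => (hdown _).1 (h.int l)
  have hyi : IsIntegral ℤ y := (hdown _).1 hμ
  have hyi' : IsIntegral ℤ (((p : E) ^ (e₂ * t)) ^ w / y) := by
    rw [← hdown, map_div₀, map_pow, map_pow, map_natCast]
    exact hμ'
  have hxi' : ∀ l, IsIntegral ℤ (((p : E) ^ e₁) ^ deg l / x l) := by
    intro l
    rw [← hdown, map_div₀, map_pow, map_pow, map_natCast]
    have h1 := (co_int he₁ h l).map ((algebraMap (EF lam) K).toIntAlgHom)
    have h2 : (algebraMap (EF lam) K).toIntAlgHom (((p : EF lam) ^ e₁) ^ deg l / el lam l) =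
        ((p : K) ^ e₁) ^ deg l / lam l := by
      change algebraMap (EF lam) K _ = _
      rw [map_div₀, map_pow, map_pow, map_natCast]
      rfl
    rw [h2] at h1
    exact h1
  -- the slopes
  have hsl : ∀ (ψ : E →ₐ[ℚ] PadicAlgCl p) (l : ι), ∃ m : ℕ, m ≤ B ∧ D * vl ψ (x l) = e₁ * m := by
    intro ψ l
    obtain ⟨m, hm⟩ := h.slope l (ψ (x l)) (aeval_emb ψ (x l))
    have h1 : D * vl ψ (x l) = e₁ * m := by
      have h2 := congrArg Real.log hm
      rw [Real.log_pow, Real.log_zpow, Real.log_pow] at h2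
      rw [vl, ← mul_div_assoc, div_eq_iff log_p_pos.ne']
      push_cast at h2
      linarith
    have he₁' : (0 : ℝ) < e₁ := by exact_mod_cast he₁
    have hm0 : 0 ≤ m := by
      have h2 : 0 ≤ vl ψ (x l) := (vl_nonneg ψ (hx0 l)).2 ((int_iff (x l)).1 (hxi l) p ψ)
      have h3 : (0 : ℝ) ≤ e₁ * m := by
        rw [← h1]
        exact mul_nonneg (Nat.cast_nonneg _) h2
      have h4 : (0 : ℝ) ≤ m := by
        by_contra hcon
        exact absurd h3 (not_le.2 (mul_neg_of_pos_of_neg he₁' (not_le.1 hcon)))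
      exact_mod_cast h4
    obtain ⟨m', rfl⟩ := Int.eq_ofNat_of_zero_le hm0
    refine ⟨m', ?_, by rw [h1]; push_cast; rfl⟩
    have hne : ((p : E) ^ e₁) ^ deg l / x l ≠ 0 :=
      div_ne_zero (pow_ne_zero _ (pow_ne_zero _ hpE)) (hx0 l)
    have h2 : 0 ≤ vl ψ (((p : E) ^ e₁) ^ deg l / x l) :=
      (vl_nonneg ψ hne).2 ((int_iff _).1 (hxi' l) p ψ)
    rw [vl_div ψ (pow_ne_zero _ (pow_ne_zero _ hpE)) (hx0 l), vl_pow, vl_pow, vl_p] at h2
    have h3 : (e₁ : ℝ) * m' ≤ e₁ * (D * deg l) := by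
      have h4 : (e₁ : ℝ) * m' = D * vl ψ (x l) := by rw [h1]; push_cast; rfl
      rw [h4]
      have h5 : (0 : ℝ) ≤ D * (deg l * (e₁ * 1) - vl ψ (x l)) := mul_nonneg (Nat.cast_nonneg _) h2
      linarith
    have h4 : (m' : ℝ) ≤ D * deg l := le_of_mul_le_mul_left h3 he₁'
    have h5 : m' ≤ D * deg l := by exact_mod_cast h4
    exact h5.trans (hB l)
  choose f hfB hf using hsl
  -- the divisibility
  have hval : ∀ (ψ : E →ₐ[ℚ] PadicAlgCl p) (y' : E) (_ : y' ≠ 0) (t' : ℕ) (a : ι → ℕ) (u : ℕ),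
      D * vl ψ ((y' ^ e₁ * (∏ l, x l ^ a l) ^ (e₂ * t')) / (p : E) ^ (e₁ * e₂ * t' * u)) =
        e₁ * (D * vl ψ y' + e₂ * t' * (∑ l, (f ψ l : ℝ) * a l - D * u)) := by
    intro ψ y' hy' t' a u
    have hP : (∏ l, x l ^ a l) ≠ 0 := Finset.prod_ne_zero_iff.2 fun l _ => pow_ne_zero _ (hx0 l)
    rw [vl_div ψ (mul_ne_zero (pow_ne_zero _ hy') (pow_ne_zero _ hP)) (pow_ne_zero _ hpE),
      vl_mul ψ (pow_ne_zero _ hy') (pow_ne_zero _ hP), vl_pow, vl_pow, vl_pow, vl_p,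
      vl_prod ψ _ _ fun l _ => pow_ne_zero _ (hx0 l)]
    simp only [vl_pow]
    have h1 : D * ∑ l, (a l : ℝ) * vl ψ (x l) = e₁ * ∑ l, (f ψ l : ℝ) * a l := by
      rw [Finset.mul_sum, Finset.mul_sum]
      refine Finset.sum_congr rfl fun l _ => ?_
      have := hf ψ l
      calc (D : ℝ) * (a l * vl ψ (x l)) = a l * (D * vl ψ (x l)) := by ring
        _ = _ := by rw [this]; ring
    push_cast
    calc _ = D * (e₁ * vl ψ y') + e₂ * t' * (D * ∑ l, (a l : ℝ) * vl ψ (x l)) -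
        D * (e₁ * e₂ * t' * u) := by ring
      _ = _ := by rw [h1]; ring
  have hD' : (0 : ℝ) < D := by exact_mod_cast hD
  have he₁' : (0 : ℝ) < e₁ := by exact_mod_cast he₁
  have he₂' : (0 : ℝ) < e₂ := by exact_mod_cast he₂
  have ht' : (0 : ℝ) < t := by exact_mod_cast ht
  -- integrality in terms of the slopes
  have hiff : ∀ (y' : E) (_ : y' ≠ 0) (_ : IsIntegral ℤ y') (t' : ℕ) (a : ι → ℕ) (u : ℕ),
      IsIntegral ℤ ((y' ^ e₁ * (∏ l, x l ^ a l) ^ (e₂ * t')) / (p : E) ^ (e₁ * e₂ * t' * u)) ↔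
        ∀ ψ : E →ₐ[ℚ] PadicAlgCl p,
          0 ≤ D * vl ψ y' + e₂ * t' * (∑ l, (f ψ l : ℝ) * a l - D * u) := by
    intro y' hy' hyi' t' a u
    have hP : (∏ l, x l ^ a l) ≠ 0 := Finset.prod_ne_zero_iff.2 fun l _ => pow_ne_zero _ (hx0 l)
    have hne : (y' ^ e₁ * (∏ l, x l ^ a l) ^ (e₂ * t')) / (p : E) ^ (e₁ * e₂ * t' * u) ≠ 0 :=
      div_ne_zero (mul_ne_zero (pow_ne_zero _ hy') (pow_ne_zero _ hP)) (pow_ne_zero _ hpE)
    have key : ∀ ψ : E →ₐ[ℚ] PadicAlgCl p,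
        (‖ψ ((y' ^ e₁ * (∏ l, x l ^ a l) ^ (e₂ * t')) / (p : E) ^ (e₁ * e₂ * t' * u))‖ ≤ 1 ↔
          0 ≤ D * vl ψ y' + e₂ * t' * (∑ l, (f ψ l : ℝ) * a l - D * u)) := by
      intro ψ
      rw [← vl_nonneg ψ hne, ← mul_nonneg_iff_of_pos_left hD', hval ψ y' hy',
        mul_nonneg_iff_of_pos_left he₁']
    rw [int_iff]
    constructor
    · intro h1 ψ
      exact (key ψ).1 (h1 p ψ)
    · intro h1 l _ ψ
      by_cases hlp : l = p
      · subst hlp
        exact (key ψ).2 (h1 ψ)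
      · have hpn : ‖(p : PadicAlgCl l)‖ = 1 := by
          have h1 : ((p : ℚ_[l]) : PadicAlgCl l) = (p : PadicAlgCl l) :=
            map_natCast (algebraMap ℚ_[l] (PadicAlgCl l)) p
          rw [← h1, PadicAlgCl.norm_extends]
          have h2 : ¬ ‖(p : ℚ_[l])‖ < 1 := by
            have h3 := (Padic.norm_intCast_lt_one_iff (p := l) (k := (p : ℤ)))
            rw [Int.cast_natCast] at h3
            rw [h3]
            intro h4
            have hl : Fact l.Prime := inferInstance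
            exact hlp ((Nat.prime_dvd_prime_iff_eq hl.out hp.out).1 (by exact_mod_cast h4))
          have h5 := Padic.norm_int_le_one (p := l) (p : ℤ)
          rw [Int.cast_natCast] at h5
          exact le_antisymm h5 (not_lt.1 h2)
        rw [map_div₀, map_mul, map_pow, map_pow, map_pow, map_natCast, map_prod, norm_div, norm_mul,
          norm_pow, norm_pow, norm_pow, hpn, one_pow, div_one, norm_prod]
        refine mul_le_one₀ (pow_le_one₀ (norm_nonneg _) ((int_iff y').1 hyi' l ψ))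
          (pow_nonneg (Finset.prod_nonneg fun _ _ => norm_nonneg _) _)
          (pow_le_one₀ (Finset.prod_nonneg fun _ _ => norm_nonneg _) ?_)
        refine Finset.prod_le_one (fun _ _ => norm_nonneg _) fun i _ => ?_
        rw [map_pow, norm_pow]
        exact pow_le_one₀ (norm_nonneg _) ((int_iff (x i)).1 (hxi i) l ψ)
  have hCN : ∀ (y' : E) (t' : ℕ) (a : ι → ℕ) (u : ℕ),
      CN p e₁ e₂ lam (algebraMap E K y') t' a u ↔
      IsIntegral ℤ ((y' ^ e₁ * (∏ l, x l ^ a l) ^ (e₂ * t')) / (p : E) ^ (e₁ * e₂ * t' * u)) := by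
    intro y' t' a u
    rw [← hdown, CN, map_div₀, map_mul, map_pow, map_pow, map_pow, map_prod, map_natCast]
    simp only [map_pow, hxK]
  -- the slack
  let G : (E →ₐ[ℚ] PadicAlgCl p) → ℝ := fun ψ => D * vl ψ y / (e₂ * t)
  have hG0 : ∀ ψ, 0 ≤ G ψ := fun ψ => div_nonneg (mul_nonneg hD'.le
    ((vl_nonneg ψ hy0).2 ((int_iff y).1 hyi p ψ))) (mul_nonneg he₂'.le ht'.le)
  have hG1 : ∀ ψ, G ψ ≤ D * w := by
    intro ψ
    have hne : ((p : E) ^ (e₂ * t)) ^ w / y ≠ 0 :=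
      div_ne_zero (pow_ne_zero _ (pow_ne_zero _ hpE)) hy0
    have h2 : 0 ≤ vl ψ (((p : E) ^ (e₂ * t)) ^ w / y) :=
      (vl_nonneg ψ hne).2 ((int_iff _).1 hyi' p ψ)
    rw [vl_div ψ (pow_ne_zero _ (pow_ne_zero _ hpE)) hy0, vl_pow, vl_pow, vl_p] at h2
    push_cast at h2
    rw [div_le_iff₀ (mul_pos he₂' ht')]
    have h3 : (D : ℝ) * vl ψ y ≤ D * (w * (e₂ * t * 1)) :=
      mul_le_mul_of_nonneg_left (by linarith) hD'.le
    linarith
  have hpos : ∀ (ψ : E →ₐ[ℚ] PadicAlgCl p) (s : ℝ),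
      0 ≤ D * vl ψ y + e₂ * t * s ↔ 0 ≤ G ψ + s := by
    intro ψ s
    have h1 : D * vl ψ y + e₂ * t * s = e₂ * t * (G ψ + s) := by
      simp only [G]
      field_simp
    rw [h1, mul_nonneg_iff_of_pos_left (mul_pos he₂' ht')]
  have hmain : ∀ ψ, D * (ν : ℝ) ≤ G ψ + ∑ l, (f ψ l : ℝ) * c l := by
    intro ψ
    have h1 := (hiff y hy0 hyi t c ν).1 ((hCN y t c ν).1 (by rw [hyK]; exact hc)) ψ
    rw [hpos] at h1
    linarith
  -- the reduced vector
  let c' : ι → ℕ := fun l => c l / D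
  have hc' : ∀ l, D * c' l ≤ c l := fun l => Nat.mul_div_le _ _
  have hc'' : ∀ l, c l ≤ D * c' l + D := fun l => by
    have h1 := Nat.div_add_mod (c l) D
    have h2 := Nat.mod_lt (c l) hD
    have h3 : c' l = c l / D := rfl
    rw [h3]
    omega
  have hnek : Nonempty (E →ₐ[ℚ] PadicAlgCl p) := ⟨IsAlgClosed.lift⟩
  have hft : Fintype (E →ₐ[ℚ] PadicAlgCl p) := inferInstance
  obtain ⟨m', v, hm1, hm2, hm3, hm4, hm5, hm6⟩ := cone_split f hB1 hR1 hfB c' ν (by
    intro ψ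
    have h1 := hmain ψ
    have h2 := hG1 ψ
    have h3 : ∑ l, (f ψ l : ℝ) * c l ≤ D * ∑ l, (f ψ l : ℝ) * c' l +
        D * (Fintype.card ι * B) := by
      rw [Finset.mul_sum]
      have h4 : (D : ℝ) * (Fintype.card ι * B) = ∑ _l : ι, (D : ℝ) * B := by
        rw [Finset.sum_const, Finset.card_univ, nsmul_eq_mul]; ring
      rw [h4, ← Finset.sum_add_distrib]
      refine Finset.sum_le_sum fun l _ => ?_
      have h5 : (c l : ℝ) ≤ D * c' l + D := by exact_mod_cast hc'' l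
      have h6 : (f ψ l : ℝ) ≤ B := by exact_mod_cast hfB ψ l
      calc (f ψ l : ℝ) * c l ≤ f ψ l * (D * c' l + D) :=
            mul_le_mul_of_nonneg_left h5 (Nat.cast_nonneg _)
        _ = D * (f ψ l * c' l) + D * f ψ l := by ring
        _ ≤ D * (f ψ l * c' l) + D * B := by
            have := mul_le_mul_of_nonneg_left h6 hD'.le
            linarith
    have h4 : D * ((ν : ℝ) - ∑ l, (f ψ l : ℝ) * c' l) ≤ D * (w + Fintype.card ι * B) := by
      rw [mul_sub, mul_add]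
      linarith
    have h5 := le_of_mul_le_mul_left h4 hD'
    have h6 : (w : ℝ) + Fintype.card ι * B ≤ R := by exact_mod_cast hR
    have h7 : ((ν : ℤ) - ∑ l, (f ψ l : ℤ) * c' l : ℤ) ≤ (R : ℝ) := by
      push_cast
      linarith
    exact_mod_cast h7) (by
    have h1 : ∑ l, c l ≤ D * ∑ l, c' l + D * Fintype.card ι := by
      rw [Finset.mul_sum]
      have h4 : D * Fintype.card ι = ∑ _l : ι, D := by
        rw [Finset.sum_const, Finset.card_univ, smul_eq_mul, mul_comm]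
      rw [h4, ← Finset.sum_add_distrib]
      exact Finset.sum_le_sum fun l _ => hc'' l
    have h2 : D * lenBound (Fintype.card ι) B R < D * ∑ l, c' l := by
      rw [mul_add] at hN
      omega
    exact Nat.lt_of_mul_lt_mul_left h2)
  have hsumc : D * ∑ l, c' l ≤ ∑ l, c l := by
    rw [Finset.mul_sum]
    exact Finset.sum_le_sum fun l _ => hc' l
  have hmc : ∀ l, D * m' l ≤ c l := fun l => (Nat.mul_le_mul_left D (hm1 l)).trans (hc' l)
  have hfm : ∀ ψ, ∑ l, (f ψ l : ℝ) * ((D * m' l : ℕ) : ℝ) = D * ∑ l, (f ψ l : ℝ) * m' l := by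
    intro ψ
    rw [Finset.mul_sum]
    exact Finset.sum_congr rfl fun l _ => by push_cast; ring
  refine ⟨fun l => D * m' l, v, hmc, hm2, ?_, ?_, ?_, ?_⟩
  · rw [← Finset.mul_sum]
    exact Nat.mul_pos hD hm3
  · rw [← Finset.mul_sum]
    exact lt_of_lt_of_le (Nat.mul_lt_mul_of_pos_left hm4 hD) hsumc
  · have h1 : CN p e₁ e₂ lam (algebraMap E K 1) 1 (fun l => D * m' l) v := by
      rw [hCN, hiff 1 one_ne_zero isIntegral_one]
      intro ψ
      have h2 : vl ψ (1 : E) = 0 := by rw [vl, map_one, norm_one, Real.log_one, neg_zero, zero_div]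
      rw [h2, mul_zero, zero_add, hfm ψ]
      have h3 : (v : ℝ) ≤ ∑ l, (f ψ l : ℝ) * m' l := by exact_mod_cast hm5 ψ
      refine mul_nonneg (mul_nonneg he₂'.le (Nat.cast_nonneg _)) ?_
      rw [← mul_sub]
      exact mul_nonneg hD'.le (sub_nonneg.2 h3)
    rwa [map_one] at h1
  · have h1 : CN p e₁ e₂ lam (algebraMap E K y) t (c - fun l => D * m' l) (ν - v) := by
      rw [hCN, hiff y hy0 hyi]
      intro ψ
      rw [hpos, Nat.cast_sub hm2]
      have h2 : ∑ l, (f ψ l : ℝ) * (((c - fun l => D * m' l) l : ℕ) : ℝ) =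
          ∑ l, (f ψ l : ℝ) * c l - D * ∑ l, (f ψ l : ℝ) * m' l := by
        rw [← hfm ψ, ← Finset.sum_sub_distrib]
        refine Finset.sum_congr rfl fun l _ => ?_
        rw [Pi.sub_apply, Nat.cast_sub (hmc l)]
        ring
      rw [h2]
      have h3 : ∑ l, (f ψ l : ℝ) * m' l - v ≤ max (∑ l, (f ψ l : ℝ) * c' l - ν) 0 := by
        exact_mod_cast hm6 ψ
      have h4 : D * (∑ l, (f ψ l : ℝ) * m' l - v) ≤
          D * max (∑ l, (f ψ l : ℝ) * c' l - ν) 0 := mul_le_mul_of_nonneg_left h3 hD'.le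
      have h5 : D * max (∑ l, (f ψ l : ℝ) * c' l - (ν : ℝ)) 0 ≤
          G ψ + ∑ l, (f ψ l : ℝ) * c l - D * ν := by
        rw [mul_max_of_nonneg _ _ hD'.le, mul_zero]
        apply max_le
        · have h6 : D * ∑ l, (f ψ l : ℝ) * c' l ≤ ∑ l, (f ψ l : ℝ) * c l := by
            rw [Finset.mul_sum]
            refine Finset.sum_le_sum fun l _ => ?_
            have h7 : (D : ℝ) * c' l ≤ c l := by exact_mod_cast hc' l
            calc (D : ℝ) * (f ψ l * c' l) = f ψ l * (D * c' l) := by ring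
              _ ≤ f ψ l * c l := mul_le_mul_of_nonneg_left h7 (Nat.cast_nonneg _)
          have h7 := hG0 ψ
          linarith
        · have := hmain ψ
          linarith
      linarith
    rwa [hyK] at h1

end

end Pool.Agent.N204.GT
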