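import Pool.Agent.N204.GT.Num
import Pool.Agent.N204.GH.Coniv
import Pool.Agent.R940.ZGen

/-!
# Splitting of the generalised Frobenius eigenvectors of given coniveau
-/

set_option linter.unusedVariables false
set_option linter.unusedSectionVars false

open CategoryTheory AlgebraicGeometry CategoryTheory.Limits

universe u v

namespace Pool.Agent.N204.GT

open Pool.Agent.H914 Pool.Agent.H447 Pool.Agent.W534 Pool.Agent.Y163 VarClass Obj WeilCohomology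
  Module Polynomial
open Pool.Agent.R940
open Pool.Agent.N204.Ray (lenBound)

variable {k : Type u} [Field k] {𝒱 : VarClass k} {ops : CycleOps 𝒱}
  {W : WeilCohomology.{u, v} ops} {X Y Z U S : 𝒱.Obj} {p : ℕ}
  [hp : Fact p.Prime] {Φ : FrobSystem W p} {σ : W.K →+* ℂ}

/-- The class `x` of degree `i` is a generalised eigenvector of a Frobenius endomorphism, for an
eigenvalue which is divisible by `q ^ ν` in the ring of the algebraic integers. -/
def Cn (Φ : FrobSystem W p) (Y : 𝒱.Obj) (i ν : ℕ) (x : W.H Y) : Prop :=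
  ∃ (s : ℕ) (α : W.K), 0 < s ∧ IsIntegral ℤ (α / (p : W.K) ^ (Φ.e Y * s * ν)) ∧
    x ∈ (frob Φ Y s).maxGenEigenspace α ∧ x ∈ W.gr Y i

/-- The exterior products of such classes on `Z × X ^ (a + 1)` and `X ^ (b + 1)`. -/
def IsExtC (Φ : FrobSystem W p) (Z X : 𝒱.Obj) (n i c : ℕ) (x : W.H (Z.prod (pw X n))) : Prop :=
  ∃ (a b : ℕ) (e : Fin (a + 1) → Fin (n + 1)) (e' : Fin (b + 1) → Fin (n + 1))
    (i' i'' c' c'' : ℕ) (v : W.H (Z.prod (pw X a))) (w : W.H (pw X b)),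
    (List.ofFn e ++ List.ofFn e').Perm (List.finRange (n + 1)) ∧ i' + i'' = i ∧ c' + c'' = c ∧
    Cn Φ _ i' c' v ∧ Cn Φ _ i'' c'' w ∧
    x = W.map (projZ Z X e) v * W.map (snd Z (pw X n)) (W.map (proj X e') w)

section

variable {ι : Type v} [Fintype ι] [DecidableEq ι] {B : HBasis W X ι} {lam : ι → W.K}

lemma gen_ne_zero {t : ℕ} {μ : W.K} {z : W.H Z} (hz : z ∈ (frob Φ Z t).maxGenEigenspace μ)
    (hz0 : z ≠ 0) : μ ≠ 0 := by
  rintro rfl
  obtain ⟨n, hn⟩ := (Module.End.mem_maxGenEigenspace _ _ _).1 hz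
  rw [zero_smul, sub_zero] at hn
  have hinj : Function.Injective (frob Φ Z t) := map_iter_injective Φ t
  have h1 : Function.Injective ((frob Φ Z t) ^ n) := by
    rw [Module.End.coe_pow]
    exact hinj.iterate n
  exact hz0 (h1 (by rw [hn, map_zero]))

/-- The monomials times classes on `Z`. -/
lemma zm_Cn (hB : IsEig Φ B lam) {n t w : ℕ} (ht : 0 < t) {μ : W.K} {z : W.H Z}
    (hz : z ∈ (frob Φ Z t).maxGenEigenspace μ) (hzw : z ∈ W.gr Z w) {I : Fin (n + 1) → ι} {ν : ℕ}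
    (h : CN p (Φ.e X) (Φ.e Z) lam μ t (cnt I) ν) :
    Cn Φ (Z.prod (pw X n)) (w + ∑ l, B.deg l * cnt I l) ν (zm B n z I) := by
  obtain ⟨A, α, β, hA, hα, hβ, hAα, hAβ, h1, h2⟩ := frob_prZ Φ Z X n
  refine ⟨A * (t * 1), μ ^ (α * 1) * (∏ j, lam (I j)) ^ (β * (t * 1)), by positivity, ?_,
    zm_E (g := true) (show IsEgB Φ true B lam from hB) h1 h2 hz 1 I, zm_gr B n hzw I⟩
  refine IsIntegral.of_pow (Φ.e_pos X) ?_
  have e1 : (μ ^ (α * 1) * (∏ j, lam (I j)) ^ (β * (t * 1)) /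
      (p : W.K) ^ (Φ.e (Z.prod (pw X n)) * (A * (t * 1)) * ν)) ^ Φ.e X =
      ((μ ^ Φ.e X * (∏ l, lam l ^ cnt I l) ^ (Φ.e Z * t)) /
        (p : W.K) ^ (Φ.e X * Φ.e Z * t * ν)) ^ α := by
    rw [prod_cnt, div_pow, div_pow, mul_pow, mul_pow, ← pow_mul, ← pow_mul, ← pow_mul, ← pow_mul,
      ← pow_mul, ← pow_mul]
    congr 2
    · congr 1; ring
    · congr 1
      calc β * (t * 1) * Φ.e X = (β * Φ.e X) * t := by ring
        _ = (α * Φ.e Z) * t := by rw [← hAβ, hAα]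
        _ = _ := by ring
    · calc Φ.e (Z.prod (pw X n)) * (A * (t * 1)) * ν * Φ.e X =
          (A * Φ.e (Z.prod (pw X n))) * t * ν * Φ.e X := by ring
        _ = (α * Φ.e Z) * t * ν * Φ.e X := by rw [hAα]
        _ = _ := by ring
  rw [e1]
  exact IsIntegral.pow h α

/-- The monomials. -/
lemma mon_Cn (hB : IsEig Φ B lam) {b e₂ : ℕ} (he₂ : 0 < e₂) {I : Fin (b + 1) → ι} {v : ℕ}
    (h : CN p (Φ.e X) e₂ lam 1 1 (cnt I) v) :
    Cn Φ (pw X b) (∑ l, B.deg l * cnt I l) v (mon B b I) := by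
  obtain ⟨S, S', hS, hS', hSS, h1⟩ := frob_pr Φ X b
  refine ⟨S * 1, (∏ j, lam (I j)) ^ (S' * 1), by positivity, ?_, mon_gen Φ hB h1 I 1, by
    rw [← sum_cnt_nat]; exact mon_gr B b I⟩
  refine IsIntegral.of_pow he₂ ?_
  have e1 : ((∏ j, lam (I j)) ^ (S' * 1) / (p : W.K) ^ (Φ.e (pw X b) * (S * 1) * v)) ^ e₂ =
      (((1 : W.K) ^ Φ.e X * (∏ l, lam l ^ cnt I l) ^ (e₂ * 1)) /
        (p : W.K) ^ (Φ.e X * e₂ * 1 * v)) ^ S' := by
    rw [prod_cnt, one_pow, one_mul, div_pow, div_pow, ← pow_mul, ← pow_mul, ← pow_mul, ← pow_mul]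
    congr 2
    · ring
    · calc Φ.e (pw X b) * (S * 1) * v * e₂ = (S * Φ.e (pw X b)) * v * e₂ := by ring
        _ = (S' * Φ.e X) * v * e₂ := by rw [hSS]
        _ = _ := by ring
  rw [e1]
  exact IsIntegral.pow h S'

/-- **Splitting.** -/
theorem splitC [IsAlgClosed W.K] (hRH : RiemannHyp Φ σ Z) (hint : HasIntegralPolys Φ σ Z)
    (hB : IsEig Φ B lam) {D : ℕ} (hD : 0 < D) (hF : IsWeilFamily p (Φ.e X) D lam B.deg) {M R : ℕ}
    (hM1 : 1 ≤ M) (hM : ∀ l, D * B.deg l ≤ M) (hR1 : 1 ≤ R)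
    (hR : 2 * Z.dim + Fintype.card ι * M ≤ R) {n : ℕ}
    (hn : D * (lenBound (Fintype.card ι) M R + Fintype.card ι) < n + 1) {i ν : ℕ}
    {c : W.H (Z.prod (pw X n))} (hc : Cn Φ (Z.prod (pw X n)) i ν c) :
    c ∈ Submodule.span W.K {x | IsExtC Φ Z X n i ν x} := by
  obtain ⟨s, α₀, hs, hα₀, hE, hgr⟩ := hc
  obtain ⟨κ, hfin, BZ, μ, hBZ⟩ := exists_ebasis Φ Z
  obtain ⟨A, α, β, hA, hα, hβ, hAα, hAβ, h1, h2⟩ := frob_prZ Φ Z X n
  obtain ⟨bs, hbs⟩ := exists_prodBasis B n BZ.b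
  have hfin' : Finite (κ × (Fin (n + 1) → ι)) := inferInstance
  have hft : Fintype κ := Fintype.ofFinite κ
  rw [← bs.sum_repr c]
  refine Submodule.sum_mem _ ?_
  rintro ⟨m, I⟩ _
  by_cases h0 : bs.repr c (m, I) = 0
  · rw [h0, zero_smul]; exact Submodule.zero_mem _
  refine Submodule.smul_mem _ _ ?_
  rw [hbs]
  have hJ : BZ.deg m + ∑ l, B.deg l * cnt I l = i := by
    by_contra hne
    apply h0
    refine repr_zero (W.isInternal (Z.prod (pw X n))).submodule_iSupIndep bs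
      (fun x => BZ.deg x.1 + ∑ l, B.deg l * cnt x.2 l) (fun x => ?_) hgr hne
    rw [show x = (x.1, x.2) from rfl, hbs]
    exact zm_gr B n (BZ.mem _) _
  have hEq : μ m ^ (α * s) * (∏ j, lam (I j)) ^ (β * (1 * s)) = α₀ ^ A := by
    by_contra hne
    apply h0
    have h3 : c ∈ (frob Φ (Z.prod (pw X n)) (A * (1 * s))).maxGenEigenspace (α₀ ^ A) := by
      have h4 := gen_mono _ _ A hE
      rwa [← frob_mul_eq, show s * A = A * (1 * s) by ring] at h4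
    refine repr_zero (Module.End.independent_maxGenEigenspace
      (frob Φ (Z.prod (pw X n)) (A * (1 * s)))) bs
      (fun x => μ x.1 ^ (α * s) * (∏ j, lam (x.2 j)) ^ (β * (1 * s))) (fun x => ?_) h3 hne
    rw [show x = (x.1, x.2) from rfl, hbs]
    exact zm_E (g := true) (show IsEgB Φ true B lam from hB) h1 h2 (hBZ x.1) s x.2
  have hCN : CN p (Φ.e X) (Φ.e Z) lam (μ m) 1 (cnt I) ν := by
    refine IsIntegral.of_pow (Nat.mul_pos hα hs) ?_
    have e1 : ((μ m ^ Φ.e X * (∏ l, lam l ^ cnt I l) ^ (Φ.e Z * 1)) /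
        (p : W.K) ^ (Φ.e X * Φ.e Z * 1 * ν)) ^ (α * s) =
        (α₀ / (p : W.K) ^ (Φ.e (Z.prod (pw X n)) * s * ν)) ^ (A * Φ.e X) := by
      have e2 : (μ m ^ Φ.e X * (∏ l, lam l ^ cnt I l) ^ (Φ.e Z * 1)) ^ (α * s) =
          (μ m ^ (α * s) * (∏ j, lam (I j)) ^ (β * (1 * s))) ^ Φ.e X := by
        rw [prod_cnt, mul_pow, mul_pow, ← pow_mul, ← pow_mul, ← pow_mul, ← pow_mul]
        congr 2
        · ring
        · calc Φ.e Z * 1 * (α * s) = (α * Φ.e Z) * s := by ring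
            _ = (β * Φ.e X) * s := by rw [← hAα, hAβ]
            _ = _ := by ring
      rw [div_pow, div_pow, e2, hEq, ← pow_mul, ← pow_mul, ← pow_mul]
      congr 2
      calc Φ.e X * Φ.e Z * 1 * ν * (α * s) = (α * Φ.e Z) * (Φ.e X * ν * s) := by ring
        _ = (A * Φ.e (Z.prod (pw X n))) * (Φ.e X * ν * s) := by rw [hAα]
        _ = _ := by ring
    rw [e1]
    exact IsIntegral.pow hα₀ _
  have hz0 : BZ.b m ≠ 0 := BZ.b.ne_zero m
  obtain ⟨hi, hi'⟩ := int_of_gen hRH hint one_pos (BZ.mem m) hz0 (hBZ m)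
  obtain ⟨m', v, hm1, hm2, hm3, hm4, hm5, hm6⟩ := cone_sub (Φ.e_pos X) (Φ.e_pos Z) hD hF hM1 hM hR1
    (w := BZ.deg m) ((Nat.add_le_add_right (deg_le BZ m) _).trans hR) one_pos hi
    (gen_ne_zero (hBZ m) hz0) hi' hCN (by rw [sum_cnt_one]; exact hn)
  obtain ⟨b, a, e', e, hperm', g1, g2⟩ := exists_subword I m' hm1
  have hperm : (List.ofFn e ++ List.ofFn e').Perm (List.finRange (n + 1)) :=
    List.perm_append_comm.trans hperm'
  have ha : ∑ l, m' l = b := by rw [← g1, sum_cnt_one]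
  have hlen : a + b = n + 1 := by
    have := hperm.length_eq
    simpa using this
  rw [sum_cnt_one] at hm4
  obtain ⟨a, rfl⟩ : ∃ r, a = r + 1 := ⟨a - 1, by omega⟩
  obtain ⟨b, rfl⟩ : ∃ r, b = r + 1 := ⟨b - 1, by omega⟩
  obtain ⟨ε, hε⟩ := mon_split B I e e' hperm
  rw [← g1] at hm5
  rw [← g2] at hm6
  have hv := zm_Cn hB (n := a) one_pos (hBZ m) (BZ.mem m) hm6
  have hw := mon_Cn hB (b := b) (Φ.e_pos Z) hm5
  have hdeg : (BZ.deg m + ∑ l, B.deg l * cnt (I ∘ e) l) + ∑ l, B.deg l * cnt (I ∘ e') l = i := by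
    rw [← hJ, add_assoc, ← Finset.sum_add_distrib]
    congr 1
    refine Finset.sum_congr rfl fun l _ => ?_
    rw [← Nat.mul_add, g1, g2, Pi.sub_apply, Nat.sub_add_cancel (hm1 l)]
  have hprod : zm B n (BZ.b m) I = ε • (W.map (projZ Z X e) (zm B a (BZ.b m) (I ∘ e)) *
      W.map (snd Z (pw X n)) (W.map (proj X e') (mon B b (I ∘ e')))) := by
    have hmap : W.map (projZ Z X e) (zm B a (BZ.b m) (I ∘ e)) =
        W.map (fst Z (pw X n)) (BZ.b m) * W.map (snd Z (pw X n))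
          (W.map (proj X e) (mon B a (I ∘ e))) := by
      rw [zm, map_mul, ← W.map_comp, ← W.map_comp, projZ, Obj.lift_fst, Obj.lift_snd, ← W.map_comp]
    rw [hmap, zm, hε, ← proj_eq, ← proj_eq, map_smul, mul_smul_comm, map_mul, mul_assoc]
  rw [hprod]
  refine Submodule.smul_mem _ _ (Submodule.subset_span ⟨a, b, e, e', _, _, ν - v, v, _, _, hperm,
    hdeg, Nat.sub_add_cancel hm2, hv, hw, rfl⟩)

end

end Pool.Agent.N204.GT
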