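import Pool.Agent.N204.GT.Base

/-!
# The Tate conjecture implies the generalized Tate conjecture, by the theorem of Honda and Tate
-/

set_option linter.unusedVariables false
set_option linter.unusedSectionVars false

open CategoryTheory AlgebraicGeometry CategoryTheory.Limits

universe u v

namespace Pool.Agent.N204.GT

open Pool.Agent.H914 Pool.Agent.H447 Pool.Agent.W534 Pool.Agent.Y163 VarClass Obj WeilCohomology
  Module Polynomial
open Pool.Agent.R940 hiding mem_of_baseChange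
open Pool.Agent.N204.GH (cv push_cv cv_ind push_mem_cv)

section Num

variable {K : Type*} [Field K] [CharZero K]

/-- Kronecker's theorem for algebraic integers. -/
lemma kron {x : K} (hx : IsIntegral ℤ x) (hx0 : x ≠ 0)
    (hC : ∀ y : ℂ, aeval y (minpoly ℚ x) = 0 → ‖y‖ ≤ 1) : ∃ n : ℕ, 0 < n ∧ x ^ n = 1 := by
  refine root_of_unity (hx.tower_top (A := ℚ)).isAlgebraic hx0 ?_ hC
  intro l _ y hy
  obtain ⟨P, hP, h0⟩ := hx
  exact padic_integral ⟨P, hP, aeval_of_minpoly (P := P) h0 hy⟩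

/-- The absolute values of a root of a quotient. -/
lemma norm_root {lam ϖ : K} {s w ν : ℕ} {q : ℕ} (hq : 0 < q) (hlam : IsIntegral ℤ lam)
    (hϖ : ϖ ^ w = lam ^ s / (q : K) ^ ν) (hw : 0 < w) {r : ℝ}
    (hr : ∀ y : ℂ, aeval y (minpoly ℚ lam) = 0 → ‖y‖ ^ 2 = r) {y : ℂ}
    (hy : aeval y (minpoly ℚ ϖ) = 0) : (‖y‖ ^ 2) ^ w * ((q : ℝ) ^ ν) ^ 2 = r ^ s := by
  classical
  have hqK : (q : K) ≠ 0 := Nat.cast_ne_zero.2 hq.ne'
  have hlamQ : IsIntegral ℚ lam := hlam.tower_top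
  have hϖQ : IsIntegral ℚ ϖ := by
    have h1 : IsIntegral ℚ (ϖ ^ w) := by
      rw [hϖ, div_eq_mul_inv]
      refine (hlamQ.pow s).mul ?_
      have h2 : ((q : K) ^ ν)⁻¹ = algebraMap ℚ K (((q : ℚ) ^ ν)⁻¹) := by
        rw [map_inv₀, map_pow, map_natCast]
      rw [h2]
      exact isIntegral_algebraMap
    exact h1.of_pow hw
  let f : Bool → K := fun b => if b then lam else ϖ
  have halg : Algebra.IsAlgebraic ℚ (EF f) := by
    apply IntermediateField.isAlgebraic_adjoin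
    rintro _ ⟨b, rfl⟩
    cases b
    · exact hϖQ
    · exact hlamQ
  have h1 := Algebra.IsAlgebraic.range_eval_eq_rootSet_minpoly ℂ (el f false) (F := ℚ)
  have h2 : y ∈ (minpoly ℚ (el f false)).rootSet ℂ := by
    rw [mem_rootSet]
    refine ⟨minpoly.ne_zero (Algebra.IsAlgebraic.isAlgebraic _).isIntegral, ?_⟩
    rw [← minpoly_coe]
    exact hy
  rw [← h1] at h2
  obtain ⟨φ, hφ⟩ := h2
  have h3 : el f false ^ w * (q : EF f) ^ ν = el f true ^ s := by
    apply (algebraMap (EF f) K).injective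
    rw [map_mul, map_pow, map_pow, map_pow, map_natCast]
    change ϖ ^ w * (q : K) ^ ν = lam ^ s
    rw [hϖ, div_mul_cancel₀ _ (pow_ne_zero _ hqK)]
  have h4 := congrArg (fun z => ‖φ z‖ ^ 2) h3
  simp only [map_mul, map_pow, map_natCast, norm_mul, norm_pow, Complex.norm_natCast] at h4
  have h5 := hr (φ (el f true)) (aeval_emb φ (el f true))
  have h6 : φ (el f false) = y := hφ
  rw [h6] at h4
  calc (‖y‖ ^ 2) ^ w * ((q : ℝ) ^ ν) ^ 2 = (‖y‖ ^ w * (q : ℝ) ^ ν) ^ 2 := by ring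
    _ = (‖φ (el f true)‖ ^ s) ^ 2 := h4
    _ = r ^ s := by rw [← h5]; ring

end Num

variable {k : Type u} [Field k] {𝒱 : VarClass k} {ops : CycleOps 𝒱}
  {W : WeilCohomology.{u, v} ops} {X Y Y' Z U P : 𝒱.Obj} {p : ℕ}
  [hp : Fact p.Prime] {Φ : FrobSystem W p} {σ : W.K →+* ℂ}

/-- The coniveau filtration consists of ideals. -/
lemma cv_mul {j : ℕ} {x : W.H Y} (hx : x ∈ cv W j Y) (b : W.H Y) : x * b ∈ cv W j Y := by
  refine cv_ind (P := fun x => x * b ∈ cv W j Y) ?_ ?_ ?_ ?_ hx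
  · rw [zero_mul]; exact Submodule.zero_mem _
  · intro x y hx hy; rw [add_mul]; exact Submodule.add_mem _ hx hy
  · intro c x hx; rw [smul_mul_assoc]; exact Submodule.smul_mem _ _ hx
  · intro Y' f i a h1 ha
    rw [← W.push_mul]
    exact push_mem_cv f h1 _

/-- The Frobenius endomorphisms in the top degree. -/
lemma frob_top {s : ℕ} {c : W.H P} (hc : c ∈ W.gr P (2 * P.dim)) :
    frob Φ P s c = (card Φ P s : W.K) ^ P.dim • c := by
  have h1 : W.map (Φ.Fr P) c = ((p : W.K) ^ (Φ.e P * P.dim)) • c := Φ.deg hc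
  have h2 : W.map (W534.iter (Φ.Fr P) 1) c = ((p : W.K) ^ (Φ.e P * 1 * P.dim)) • c := by
    change W.map (𝟙 P ≫ Φ.Fr P) c = _
    rw [Category.id_comp, h1, mul_one]
  have h3 := W534.frob_mul Φ h2 s
  rw [frob_apply, card_pow, one_mul] at *
  exact h3

/-- Dual generalised eigenvectors. -/
lemma exists_dual [IsAlgClosed W.K] {w t : ℕ} (ht : 0 < t) {β : W.H P} (hβ : β ∈ W.gr P w)
    (hβ0 : β ≠ 0) {ρ : W.K} (hE : β ∈ (frob Φ P t).maxGenEigenspace ρ) :
    ∃ (γ : W.H P) (w' : ℕ) (μ : W.K), γ ∈ W.gr P w' ∧ w + w' = 2 * P.dim ∧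
      γ ∈ (frob Φ P t).maxGenEigenspace μ ∧ ρ * μ = (card Φ P t : W.K) ^ P.dim ∧
      W.tr P (β * γ) ≠ 0 := by
  obtain ⟨ι, hfin, B, lam, hB⟩ := exists_ebasis Φ P
  obtain ⟨l, hl⟩ : ∃ l, W.tr P (β * B.b l) ≠ 0 := by
    by_contra hcon
    push Not at hcon
    apply hβ0
    apply W.nondeg
    intro b
    have : Fintype ι := Fintype.ofFinite ι
    rw [← B.b.sum_repr b, Finset.mul_sum, map_sum]
    exact Finset.sum_eq_zero fun l _ => by rw [mul_smul_comm, map_smul, hcon, smul_zero]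
  have hdeg : w + B.deg l = 2 * P.dim := by
    by_contra hne
    exact hl (W.tr_eq_zero (W.mul_mem hβ (B.mem l)) hne)
  have hEl : B.b l ∈ (frob Φ P t).maxGenEigenspace (lam l ^ t) := by
    have h1 := gen_mono _ _ t (hB l)
    rwa [← frob_mul_eq, one_mul] at h1
  refine ⟨B.b l, B.deg l, lam l ^ t, B.mem l, hdeg, hEl, ?_, hl⟩
  have h1 : β * B.b l ∈ (frob Φ P t).maxGenEigenspace (ρ * lam l ^ t) :=
    gen_bilin (β := LinearMap.mul W.K (W.H P)) (fun a b => (frob_mul' Φ t a b).symm) hE hEl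
  have h0 : β * B.b l ≠ 0 := fun h => hl (by rw [h, map_zero])
  have h2 : β * B.b l ∈ W.gr P (2 * P.dim) := by
    rw [← hdeg]; exact W.mul_mem hβ (B.mem l)
  obtain ⟨n, hn⟩ := (Module.End.mem_maxGenEigenspace _ _ _).1 h1
  have h3 : ∀ n : ℕ, ((frob Φ P t - (ρ * lam l ^ t) • (1 : Module.End W.K (W.H P))) ^ n)
      (β * B.b l) = ((card Φ P t : W.K) ^ P.dim - ρ * lam l ^ t) ^ n • (β * B.b l) := by
    intro n
    induction n with
    | zero => rw [pow_zero, pow_zero, one_smul]; rfl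
    | succ n ih =>
      rw [pow_succ', Module.End.mul_apply, ih, map_smul, LinearMap.sub_apply, frob_top h2,
        LinearMap.smul_apply, Module.End.one_apply, ← sub_smul, smul_smul, ← pow_succ]
  rw [h3] at hn
  have h4 := (smul_eq_zero.1 hn).resolve_right h0
  exact (sub_eq_zero.1 (eq_zero_of_pow_eq_zero h4)).symm

/-- **The correspondence.** -/
theorem core [IsAlgClosed W.K]
    (hcyc : ∀ (Y : 𝒱.Obj) (j : ℕ) (z : Y.Cycles), Y.IsCyc j z → W.cl Y z ∈ cv W j Y)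
    {w i ν s t : ℕ} (hs : 0 < s) (ht : 0 < t) (hst : Φ.e P * t = Φ.e Y * s) {β : W.H P}
    (hβ : β ∈ W.gr P w) (hβ0 : β ≠ 0) {ρ : W.K} (hβE : β ∈ (frob Φ P t).maxGenEigenspace ρ)
    {α : W.K} {x : W.H Y} (hx : x ∈ W.gr Y i) (hxE : x ∈ (frob Φ Y s).maxGenEigenspace α)
    (hi : i = w + 2 * ν) (hα : α = ρ * (card Φ Y s : W.K) ^ ν)
    (hT : ∀ j, SemisimpleTateIn Φ (P.prod Y) j) : x ∈ cv W ν Y := by
  obtain ⟨γ, w', μ, hγ, hww, hγE, hμ, htr⟩ := exists_dual ht hβ hβ0 hβE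
  obtain ⟨A, a, b, hA, ha, hb, hAa, hAb, h1, h2⟩ := frob_prZ Φ P Y 0
  have hdiv : a * s = b * t := by
    have h3 : Φ.e P * t * (a * s) = Φ.e P * t * (b * t) := by
      calc Φ.e P * t * (a * s) = (a * Φ.e P) * (t * s) := by ring
        _ = (b * Φ.e Y) * (t * s) := by rw [← hAa, hAb]
        _ = (Φ.e Y * s) * (b * t) := by ring
        _ = _ := by rw [← hst]
    exact Nat.eq_of_mul_eq_mul_left (Nat.mul_pos (Φ.e_pos P) ht) h3
  set c : W.H (P.prod Y) := W.map (fst P Y) γ * W.map (snd P Y) x with hc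
  have hcard : card Φ (P.prod Y) (A * (t * s)) = card Φ P t ^ (a * s) := by
    rw [card, card, ← pow_mul]
    congr 1
    calc Φ.e (P.prod Y) * (A * (t * s)) = (A * Φ.e (P.prod Y)) * (t * s) := by ring
      _ = (a * Φ.e P) * (t * s) := by
        have : A * Φ.e (P.prod Y) = a * Φ.e P := hAa
        rw [this]
      _ = _ := by ring
  have hcardY : card Φ Y s = card Φ P t := by rw [card, card, hst]
  have hcgen : c ∈ genTate Φ (P.prod Y) (A * (t * s)) (P.dim + ν) := by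
    refine ⟨?_, ?_⟩
    · have e1 : c ∈ (frob Φ (P.prod Y) (A * (t * s))).maxGenEigenspace
          (μ ^ (a * s) * α ^ (b * t)) := by
        refine gen_bilin (β := LinearMap.mul W.K (W.H (P.prod Y)))
          (fun a b => (frob_mul' Φ _ a b).symm) ?_ ?_
        · refine gen_semi (f := frob Φ P (a * (t * s))) (θ := (W.map (fst P Y)).toLinearMap)
            (fun y => h1 (t * s) y) ?_
          have h3 := gen_mono _ _ (a * s) hγE
          rwa [← frob_mul_eq, show t * (a * s) = a * (t * s) by ring] at h3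
        · refine gen_semi (f := frob Φ Y (b * (t * s))) (θ := (W.map (snd P Y)).toLinearMap)
            (fun y => ?_) ?_
          · have h3 := h2 0 (t * s) y
            have h4 : ∀ z : W.H Y, W.map (pr Y 0 0) z = z := fun z => W.map_id Y z
            rw [h4, h4] at h3
            exact h3
          · have h3 := gen_mono _ _ (b * t) hxE
            rwa [← frob_mul_eq, show s * (b * t) = b * (t * s) by ring] at h3
      have e2 : μ ^ (a * s) * α ^ (b * t) =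
          (card Φ (P.prod Y) (A * (t * s)) : W.K) ^ (P.dim + ν) := by
        rw [← hdiv, hα, hcardY, hcard, Nat.cast_pow]
        calc μ ^ (a * s) * (ρ * (card Φ P t : W.K) ^ ν) ^ (a * s)
            = ((ρ * μ) * (card Φ P t : W.K) ^ ν) ^ (a * s) := by ring
          _ = (((card Φ P t : W.K) ^ P.dim) * (card Φ P t : W.K) ^ ν) ^ (a * s) := by rw [hμ]
          _ = _ := by rw [← pow_add, ← pow_mul, ← pow_mul, mul_comm (a * s)]
      rw [e2] at e1
      exact e1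
    · have h3 : w' + i = 2 * (P.dim + ν) := by omega
      rw [← h3]
      exact W.mul_mem (W.map_mem _ hγ) (W.map_mem _ hx)
  have hspan : spanCycles W (P.prod Y) ((P.dim + ν : ℕ) : ℤ) ≤ cv W (P.dim + ν) (P.prod Y) := by
    refine Submodule.span_le.2 ?_
    rintro _ ⟨r, hr, z, hz, rfl⟩
    have h3 : r = P.dim + ν := by
      have h4 := hr
      omega
    subst h3
    exact hcyc _ _ _ hz
  have hccv : c ∈ cv W (P.dim + ν) (P.prod Y) :=
    hspan (hT _ _ (Nat.mul_pos hA (Nat.mul_pos ht hs)) hcgen)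
  have h3 : W.map (fst P Y) β * c = W.map (fst P Y) (β * γ) * W.map (snd P Y) x := by
    rw [hc, map_mul, mul_assoc]
  have h4 : W.map (fst P Y) β * c ∈ cv W (P.dim + ν) (P.prod Y) := by
    rw [← W.even_comm hcgen.2]
    exact cv_mul hccv _
  rw [h3] at h4
  have h5 := push_cv (W := W) (snd P Y) (show (P.prod Y).dim + ν ≤ Y.dim + (P.dim + ν) by
    simp only [dim_prod]; omega) h4
  rw [W.push_snd] at h5
  have h6 := Submodule.smul_mem _ (W.tr P (β * γ))⁻¹ h5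
  rwa [smul_smul, inv_mul_cancel₀ htr, one_smul] at h6

/-- The theorem of Honda and Tate: the Weil numbers of weight one occur in the first cohomology
groups of the varieties in the set `𝒜`. -/
def HTW (Φ : FrobSystem W p) (𝒜 : Set 𝒱.Obj) : Prop :=
  ∀ (a : ℕ) (ϖ : W.K), 0 < a → IsIntegral ℤ ϖ →
    (∀ y : ℂ, aeval y (minpoly ℚ ϖ) = 0 → ‖y‖ ^ 2 = (p : ℝ) ^ a) →
    ∃ A ∈ 𝒜, ∃ r t : ℕ, 0 < r ∧ 0 < t ∧ a * r = Φ.e A * t ∧ ∃ β ∈ W.gr A 1, β ≠ 0 ∧
      β ∈ (frob Φ A t).maxGenEigenspace (ϖ ^ r)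

/-- **The case of one Frobenius eigenvalue.** -/
theorem key_tate [IsAlgClosed W.K]
    (hcyc : ∀ (Y : 𝒱.Obj) (j : ℕ) (z : Y.Cycles), Y.IsCyc j z → W.cl Y z ∈ cv W j Y)
    {𝒜 : Set 𝒱.Obj} (hA : HTW Φ 𝒜) {lam : W.K} {i ν : ℕ} (hlamI : IsIntegral ℤ lam)
    (hlam0 : lam ≠ 0)
    (harch : ∀ y : ℂ, aeval y (minpoly ℚ lam) = 0 → ‖y‖ ^ 2 = (card Φ Y 1 : ℝ) ^ i)
    (hile : i ≤ 2 * Y.dim) (hα : IsIntegral ℤ (lam / (card Φ Y 1 : W.K) ^ ν)) :
    ∃ A ∈ 𝒜, (∀ m ≤ 2 * Y.dim, ∀ j, SemisimpleTateIn Φ ((pw A m).prod Y) j) →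
      ∀ (s : ℕ) (x : W.H Y), 0 < s → x ∈ (frob Φ Y s).maxGenEigenspace (lam ^ s) →
        x ∈ W.gr Y i → x ∈ cv W ν Y := by
  classical
  have hpK : (p : W.K) ≠ 0 := Nat.cast_ne_zero.2 hp.out.ne_zero
  set q : ℕ := card Φ Y 1 with hq
  have hqpos : 0 < q := card_pos Φ 1
  have hqK : (q : W.K) ≠ 0 := Nat.cast_ne_zero.2 hqpos.ne'
  have hq1 : (1 : ℝ) < (q : ℝ) := by
    have : 1 < q := Nat.one_lt_pow (Nat.mul_pos (Φ.e_pos Y) one_pos).ne' hp.out.one_lt
    exact_mod_cast this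
  have hcardY : ∀ s, card Φ Y s = q ^ s := fun s => by
    rw [hq, ← card_mul_eq, one_mul]
  have hπ0 : lam / (q : W.K) ^ ν ≠ 0 := div_ne_zero hlam0 (pow_ne_zero _ hqK)
  -- the absolute values
  have habs : ∀ (w : ℕ) (ϖ : W.K), 0 < w → ϖ ^ w = lam / (q : W.K) ^ ν → ∀ y : ℂ,
      aeval y (minpoly ℚ ϖ) = 0 → (‖y‖ ^ 2) ^ w * (q : ℝ) ^ (2 * ν) = (q : ℝ) ^ i := by
    intro w ϖ hw hϖ y hy
    have h1 := norm_root (s := 1) hqpos hlamI (by rw [pow_one]; exact hϖ) hw harch hy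
    calc (‖y‖ ^ 2) ^ w * (q : ℝ) ^ (2 * ν) = (‖y‖ ^ 2) ^ w * ((q : ℝ) ^ ν) ^ 2 := by ring
      _ = ((q : ℝ) ^ i) ^ 1 := h1
      _ = (q : ℝ) ^ i := pow_one _
  -- the case of weight zero
  have hzero : i ≤ 2 * ν → ∃ n : ℕ, 0 < n ∧ (lam / (q : W.K) ^ ν) ^ n = 1 ∧ i = 2 * ν := by
    intro hle
    have h1 : ∀ y : ℂ, aeval y (minpoly ℚ (lam / (q : W.K) ^ ν)) = 0 → ‖y‖ ≤ 1 := by
      intro y hy
      have h2 := habs 1 _ one_pos (pow_one _) y hy
      rw [pow_one] at h2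
      have h3 : ‖y‖ ^ 2 ≤ 1 := by
        have h4 : (q : ℝ) ^ i ≤ (q : ℝ) ^ (2 * ν) := pow_le_pow_right₀ hq1.le hle
        have h5 : 0 < (q : ℝ) ^ (2 * ν) := by positivity
        rw [← h2] at h4
        by_contra hcon
        have h6 : 1 * (q : ℝ) ^ (2 * ν) < ‖y‖ ^ 2 * (q : ℝ) ^ (2 * ν) :=
          mul_lt_mul_of_pos_right (not_le.1 hcon) h5
        rw [one_mul] at h6
        exact absurd h4 (not_le.2 h6)
      exact (pow_le_one_iff_of_nonneg (norm_nonneg _) two_ne_zero).1 h3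
    obtain ⟨n, hn, h2⟩ := kron hα hπ0 h1
    refine ⟨n, hn, h2, ?_⟩
    -- the weight
    obtain ⟨y, hy⟩ : ∃ y : ℂ, aeval y (minpoly ℚ (lam / (q : W.K) ^ ν)) = 0 := by
      have h3 : (minpoly ℚ (lam / (q : W.K) ^ ν)).degree ≠ 0 :=
        (minpoly.degree_pos (hα.tower_top (A := ℚ))).ne'
      exact IsAlgClosed.exists_aeval_eq_zero ℂ _ h3
    have h4 := habs 1 _ one_pos (pow_one _) y hy
    have h5 : y ^ n = 1 := by
      have h6 : aeval (lam / (q : W.K) ^ ν) (X ^ n - 1 : ℤ[X]) = 0 := by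
        rw [map_sub, map_pow, aeval_X, map_one, h2, sub_self]
      have h7 := aeval_of_minpoly h6 hy
      rw [map_sub, map_pow, aeval_X, map_one, sub_eq_zero] at h7
      exact h7
    have h6 : ‖y‖ = 1 := by
      have h7 := congrArg norm h5
      rw [norm_pow, norm_one] at h7
      exact (pow_eq_one_iff_of_nonneg (norm_nonneg _) hn.ne').1 h7
    rw [h6, one_pow, one_pow, one_mul] at h4
    exact (pow_right_injective₀ (zero_lt_one.trans hq1) hq1.ne' h4).symm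
  rcases Nat.lt_or_ge (2 * ν) i with hlt | hge
  · -- positive weight
    obtain ⟨w, hw⟩ : ∃ w, i = w + 2 * ν := ⟨i - 2 * ν, by omega⟩
    have hw0 : 0 < w := by omega
    obtain ⟨ϖ, hϖ⟩ := IsAlgClosed.exists_pow_nat_eq (lam / (q : W.K) ^ ν) hw0
    have hϖI : IsIntegral ℤ ϖ := IsIntegral.of_pow hw0 (by rw [hϖ]; exact hα)
    obtain ⟨A, hA𝒜, r, t, hr, ht, hrt, β₀, hβ₀, hβ00, hβ₀E⟩ := hA (Φ.e Y) ϖ
      (Φ.e_pos Y) hϖI (fun y hy => by
        have h1 := habs w ϖ hw0 hϖ y hy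
        rw [hw, pow_add] at h1
        have h2 := mul_right_cancel₀ (pow_ne_zero _ (by positivity)) h1
        have h3 : ‖y‖ ^ 2 = (q : ℝ) :=
          (pow_left_inj₀ (by positivity) (by positivity) hw0.ne').1 h2
        rw [h3, hq, card, mul_one]
        push_cast
        rfl)
    refine ⟨A, hA𝒜, fun hT s x hs hxE hx => ?_⟩
    obtain ⟨κ, hfκ, BA, mu, hBA⟩ := exists_ebasis Φ A
    obtain ⟨l', hl'⟩ : ∃ l, BA.b.repr β₀ l ≠ 0 := by
      by_contra hcon
      push Not at hcon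
      exact hβ00 (BA.b.ext_elem fun l => by rw [hcon, map_zero]; rfl)
    have hdeg' : BA.deg l' = 1 := by
      by_contra hne
      exact hl' (repr_zero (W.isInternal A).submodule_iSupIndep BA.b BA.deg BA.mem hβ₀ hne)
    have hmu : mu l' ^ t = ϖ ^ r := by
      by_contra hne
      refine hl' (repr_zero (Module.End.independent_maxGenEigenspace (frob Φ A t)) BA.b
        (fun l => mu l ^ t) (fun l => ?_) hβ₀E hne)
      have h1 := gen_mono _ _ t (hBA l)
      rwa [← frob_mul_eq, one_mul] at h1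
    have hfκ' : Fintype κ := Fintype.ofFinite κ
    obtain ⟨S, S', hS, hS', hSS, h1⟩ := frob_pr Φ A (w - 1)
    let I : Fin (w - 1 + 1) → κ := fun _ => l'
    obtain ⟨bs, hbs⟩ := exists_monBasis BA (w - 1)
    have hβE := mon_gen Φ hBA h1 I (t * s)
    have hρ : (∏ j, mu (I j)) ^ (S' * (t * s)) = (lam / (q : W.K) ^ ν) ^ (s * (r * S')) := by
      have e1 : ∏ j, mu (I j) = mu l' ^ w := by
        change ∏ _j : Fin (w - 1 + 1), mu l' = _
        rw [Finset.prod_const, Finset.card_univ, Fintype.card_fin, Nat.sub_add_cancel hw0]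
      calc (∏ j, mu (I j)) ^ (S' * (t * s)) = (mu l' ^ t) ^ (w * S' * s) := by rw [e1]; ring
        _ = (ϖ ^ w) ^ (s * (r * S')) := by rw [hmu]; ring
        _ = _ := by rw [hϖ]
    refine core (P := pw A (w - 1)) hcyc (w := w) (s := s * (r * S')) (t := S * (t * s))
      (by positivity) (by positivity) ?_ (β := mon BA (w - 1) I) ?_ ?_ hβE hx
      (α := (lam ^ s) ^ (r * S')) ?_ hw ?_ (hT (w - 1) (by omega))
    · calc Φ.e (pw A (w - 1)) * (S * (t * s)) = (S * Φ.e (pw A (w - 1))) * (t * s) := by ring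
        _ = S' * (Φ.e A * t) * s := by rw [hSS]; ring
        _ = S' * (Φ.e Y * r) * s := by rw [hrt]
        _ = _ := by ring
    · have h2 := mon_gr BA (w - 1) I
      have h3 : ∑ j, BA.deg (I j) = w := by
        rw [Finset.sum_congr rfl fun j _ => show BA.deg (I j) = 1 from hdeg', Finset.sum_const,
          Finset.card_univ, Fintype.card_fin, smul_eq_mul, mul_one, Nat.sub_add_cancel hw0]
      rwa [h3] at h2
    · rw [← hbs]
      exact bs.ne_zero I
    · have h3 := gen_mono _ _ (r * S') hxE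
      rwa [← frob_mul_eq] at h3
    · rw [hρ, hcardY, div_pow, Nat.cast_pow, ← pow_mul, ← pow_mul, ← pow_mul,
        mul_comm (s * (r * S')) ν, div_mul_cancel₀ _ (pow_ne_zero _ hqK)]
  · -- weight zero
    obtain ⟨n, hn, h1, hi⟩ := hzero hge
    obtain ⟨ϖ, hϖ⟩ := IsAlgClosed.exists_pow_nat_eq (p : W.K) two_pos
    have hpI : IsIntegral ℤ (p : W.K) := by
      have h2 := isIntegral_algebraMap (R := ℤ) (A := W.K) (x := (p : ℤ))
      rwa [map_natCast] at h2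
    obtain ⟨A, hA𝒜, r, t, hr, ht, hrt, β₀, hβ₀, hβ00, -⟩ := hA 1 ϖ one_pos
      (IsIntegral.of_pow two_pos (by rw [hϖ]; exact hpI)) (fun y hy => by
        have h6 : aeval ϖ (X ^ 2 - C (p : ℤ) : ℤ[X]) = 0 := by
          rw [map_sub, map_pow, aeval_X, aeval_C, hϖ, map_natCast, sub_self]
        have h7 := aeval_of_minpoly h6 hy
        rw [map_sub, map_pow, aeval_X, aeval_C, map_natCast, sub_eq_zero] at h7
        rw [← norm_pow, h7, Complex.norm_natCast, pow_one])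
    have hAnt : (1 : W.H A) ≠ 0 := by
      intro h0
      exact hβ00 (by rw [← mul_one β₀, h0, mul_zero])
    have hαn : lam ^ n = (q : W.K) ^ (ν * n) := by
      rw [div_pow, div_eq_one_iff_eq (pow_ne_zero _ (pow_ne_zero _ hqK)), ← pow_mul] at h1
      exact h1
    refine ⟨A, hA𝒜, fun hT s x hs hxE hx => ?_⟩
    refine core (P := A) hcyc (w := 0) (s := s * (n * Φ.e A)) (t := Φ.e Y * (s * n))
      (by have := Φ.e_pos A; positivity) (by have := Φ.e_pos Y; positivity) (by ring)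
      (β := (1 : W.H A)) (W.one_mem A) hAnt (ρ := 1) ?_ hx
      (α := (lam ^ s) ^ (n * Φ.e A)) ?_ (by omega) ?_ (hT 0 (by omega))
    · refine (Module.End.mem_maxGenEigenspace _ _ _).2 ⟨1, ?_⟩
      rw [pow_one, LinearMap.sub_apply, one_smul, Module.End.one_apply, frob_apply, map_one,
        sub_self]
    · have h3 := gen_mono _ _ (n * Φ.e A) hxE
      rwa [← frob_mul_eq] at h3
    · calc (lam ^ s) ^ (n * Φ.e A) = (lam ^ n) ^ (s * Φ.e A) := by ring
        _ = _ := by rw [hαn, one_mul, hcardY, Nat.cast_pow, ← pow_mul, ← pow_mul]; ring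

/-- **The Tate conjecture for finitely many products with powers of abelian varieties implies the
generalized Tate conjecture.** -/
theorem GC_of_tate [IsAlgClosed W.K]
    (hcyc : ∀ (Y : 𝒱.Obj) (j : ℕ) (z : Y.Cycles), Y.IsCyc j z → W.cl Y z ∈ cv W j Y)
    (hRH : RiemannHyp Φ σ Y) (hint : HasIntegralPolys Φ σ Y) {𝒜 : Set 𝒱.Obj} (hA : HTW Φ 𝒜) :
    ∃ 𝓕 : Set 𝒱.Obj, 𝓕 ⊆ 𝒜 ∧ 𝓕.Finite ∧
      ((∀ A ∈ 𝓕, ∀ m ≤ 2 * Y.dim, ∀ j, SemisimpleTateIn Φ ((pw A m).prod Y) j) → GC Φ Y) := by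
  classical
  obtain ⟨ι, hfin, B, lam, hB⟩ := exists_ebasis Φ Y
  have hF := weilFamily hB hRH hint (slopeDenominator hRH hint)
  have hpK : (p : W.K) ≠ 0 := Nat.cast_ne_zero.2 hp.out.ne_zero
  have hlam0 : ∀ l, lam l ≠ 0 := fun l => gen_ne_zero (hB l) (B.b.ne_zero l)
  have hcardY : ∀ s, card Φ Y s = card Φ Y 1 ^ s := fun s => by
    rw [← card_mul_eq, one_mul]
  have harch : ∀ l, ∀ y : ℂ, aeval y (minpoly ℚ (lam l)) = 0 →
      ‖y‖ ^ 2 = (card Φ Y 1 : ℝ) ^ B.deg l := by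
    intro l y hy
    have h1 := hF.arch l y hy
    rw [h1, card, mul_one]
    push_cast
    rfl
  have hq0 : (card Φ Y 1 : W.K) ≠ 0 := card_ne Φ 1
  have key : ∀ (l : ι) (ν : ℕ), ∃ F : Set 𝒱.Obj, F ⊆ 𝒜 ∧ F.Finite ∧
      (IsIntegral ℤ (lam l / (card Φ Y 1 : W.K) ^ ν) →
        (∀ A ∈ F, ∀ m ≤ 2 * Y.dim, ∀ j, SemisimpleTateIn Φ ((pw A m).prod Y) j) →
        ∀ (s : ℕ) (x : W.H Y), 0 < s → x ∈ (frob Φ Y s).maxGenEigenspace (lam l ^ s) →
          x ∈ W.gr Y (B.deg l) → x ∈ cv W ν Y) := by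
    intro l ν
    by_cases h : IsIntegral ℤ (lam l / (card Φ Y 1 : W.K) ^ ν)
    · obtain ⟨A, hA𝒜, h1⟩ := key_tate (Y := Y) hcyc hA (hF.int l) (hlam0 l) (harch l) (deg_le B l) h
      refine ⟨{A}, Set.singleton_subset_iff.2 hA𝒜, Set.finite_singleton A, fun _ hT => h1 ?_⟩
      exact hT A (Set.mem_singleton A)
    · exact ⟨∅, Set.empty_subset _, Set.finite_empty, fun h' => absurd h' h⟩
  choose F hF1 hF2 hF3 using key
  refine ⟨⋃ (l : ι) (ν : Fin (Y.dim + 1)), F l ν, Set.iUnion_subset fun l =>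
    Set.iUnion_subset fun ν => hF1 l ν, Set.finite_iUnion fun l => Set.finite_iUnion fun ν =>
      hF2 l ν, fun hT => ?_⟩
  intro i ν x hxC
  by_cases hx0 : x = 0
  · rw [hx0]; exact Submodule.zero_mem _
  obtain ⟨s, α, hs, hα, hxE, hx⟩ := hxC
  obtain ⟨l, hl⟩ : ∃ l, B.b.repr x l ≠ 0 := by
    by_contra hcon
    push Not at hcon
    exact hx0 (B.b.ext_elem fun l => by rw [hcon, map_zero]; rfl)
  have hdeg : B.deg l = i := by
    by_contra hne
    exact hl (repr_zero (W.isInternal Y).submodule_iSupIndep B.b B.deg B.mem hx hne)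
  have hlam : lam l ^ s = α := by
    by_contra hne
    refine hl (repr_zero (Module.End.independent_maxGenEigenspace (frob Φ Y s)) B.b
      (fun l => lam l ^ s) (fun l => ?_) hxE hne)
    have h1 := gen_mono _ _ s (hB l)
    rwa [← frob_mul_eq, one_mul] at h1
  have hint' : IsIntegral ℤ (lam l / (card Φ Y 1 : W.K) ^ ν) := by
    refine IsIntegral.of_pow hs ?_
    have e1 : (lam l / (card Φ Y 1 : W.K) ^ ν) ^ s = α / (p : W.K) ^ (Φ.e Y * s * ν) := by
      rw [div_pow, hlam, ← card_pow, hcardY s, Nat.cast_pow, ← pow_mul, ← pow_mul, mul_comm ν]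
    rw [e1]
    exact hα
  have hν : ν ≤ Y.dim := by
    by_contra hcon
    have hq1 : (1 : ℝ) < (card Φ Y 1 : ℝ) := by
      have : 1 < card Φ Y 1 := Nat.one_lt_pow (Nat.mul_pos (Φ.e_pos Y) one_pos).ne' hp.out.one_lt
      exact_mod_cast this
    obtain ⟨y, hy⟩ : ∃ y : ℂ, aeval y (minpoly ℚ (lam l / (card Φ Y 1 : W.K) ^ ν)) = 0 := by
      have h3 : (minpoly ℚ (lam l / (card Φ Y 1 : W.K) ^ ν)).degree ≠ 0 :=
        (minpoly.degree_pos (hint'.tower_top (A := ℚ))).ne'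
      exact IsAlgClosed.exists_aeval_eq_zero ℂ _ h3
    have h1 : ∀ y : ℂ, aeval y (minpoly ℚ (lam l / (card Φ Y 1 : W.K) ^ ν)) = 0 →
        (‖y‖ ^ 2) * (card Φ Y 1 : ℝ) ^ (2 * ν) = (card Φ Y 1 : ℝ) ^ i := by
      intro y hy
      have h1 := norm_root (s := 1) (w := 1) (card_pos Φ 1) (hF.int l)
        (by rw [pow_one, pow_one]) one_pos (harch l) hy
      rw [hdeg, pow_one, pow_one] at h1
      rw [← h1]
      ring
    have h2 : ∀ y : ℂ, aeval y (minpoly ℚ (lam l / (card Φ Y 1 : W.K) ^ ν)) = 0 → ‖y‖ < 1 := by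
      intro y hy
      have h3 := h1 y hy
      have h4 : (card Φ Y 1 : ℝ) ^ i < (card Φ Y 1 : ℝ) ^ (2 * ν) := by
        apply pow_lt_pow_right₀ hq1
        have := deg_le B l
        omega
      have h5 : 0 < (card Φ Y 1 : ℝ) ^ (2 * ν) := by positivity
      by_contra hcon'
      have h6 : 1 ≤ ‖y‖ ^ 2 := one_le_pow₀ (not_lt.1 hcon')
      have h7 : (card Φ Y 1 : ℝ) ^ (2 * ν) ≤ ‖y‖ ^ 2 * (card Φ Y 1 : ℝ) ^ (2 * ν) :=
        le_mul_of_one_le_left h5.le h6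
      rw [h3] at h7
      exact absurd h4 (not_lt.2 h7)
    obtain ⟨n, hn, h3⟩ := kron hint' (div_ne_zero (hlam0 l) (pow_ne_zero _ hq0))
      (fun y hy => (h2 y hy).le)
    have h5 : y ^ n = 1 := by
      have h6 : aeval (lam l / (card Φ Y 1 : W.K) ^ ν) (X ^ n - 1 : ℤ[X]) = 0 := by
        rw [map_sub, map_pow, aeval_X, map_one, h3, sub_self]
      have h7 := aeval_of_minpoly h6 hy
      rw [map_sub, map_pow, aeval_X, map_one, sub_eq_zero] at h7
      exact h7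
    have h6 := congrArg norm h5
    rw [norm_pow, norm_one] at h6
    have h7 : ‖y‖ = 1 := (pow_eq_one_iff_of_nonneg (norm_nonneg _) hn.ne').1 h6
    exact absurd (h2 y hy) (by rw [h7]; exact lt_irrefl _)
  have hT' : ∀ A ∈ F l ν, ∀ m ≤ 2 * Y.dim, ∀ j, SemisimpleTateIn Φ ((pw A m).prod Y) j :=
    fun A hA => hT A (Set.mem_iUnion.2 ⟨l, Set.mem_iUnion.2 ⟨⟨ν, Nat.lt_succ_of_le hν⟩, hA⟩⟩)
  exact hF3 l ν hint' hT' s x hs (by rw [hlam]; exact hxE) (by rw [hdeg]; exact hx)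

end Pool.Agent.N204.GT
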