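import Pool.Agent.N204.GT.Base
import Pool.Agent.N204.GT.Tate

/-!
# Extension of the coefficients: the hypotheses
-/

set_option linter.unusedVariables false
set_option linter.unusedSectionVars false

open CategoryTheory AlgebraicGeometry CategoryTheory.Limits TensorProduct

universe u v

namespace Pool.Agent.N204.GT

open Pool.Agent.H914 Pool.Agent.H447 Pool.Agent.W534 Pool.Agent.Y163 VarClass Obj WeilCohomology
  Module Polynomial
open Pool.Agent.R940 hiding mem_of_baseChange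
open Pool.Agent.R908 (baseFrob base_map_tmul base_map_eq base_induction_mod mem_baseChange_iff
  coef coef_baseChange)
open Pool.Agent.N204.GH (cv push_cv)

variable {k : Type u} [Field k] {𝒱 : VarClass k} {ops : CycleOps 𝒱}
  {W : WeilCohomology.{u, v} ops} {X Y Y' Z U S : 𝒱.Obj} {p : ℕ}
  {Φ : FrobSystem W p} {σ : W.K →+* ℂ} {L : Type v} [Field L] [Algebra W.K L]

/-- The embedding of the coefficients extends. -/
lemma exists_ext (σ : W.K →+* ℂ) [Algebra.IsAlgebraic W.K L] :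
    ∃ σ' : L →+* ℂ, σ'.comp (algebraMap W.K L) = σ := by
  let _ : Algebra W.K ℂ := σ.toAlgebra
  let f : L →ₐ[W.K] ℂ := IsAlgClosed.lift
  exact ⟨f.toRingHom, f.comp_algebraMap⟩

section

variable {σ' : L →+* ℂ} (hσ : σ'.comp (algebraMap W.K L) = σ)

include hσ

lemma riemann_base (h : RiemannHyp Φ σ X) : RiemannHyp (baseFrob Φ L) σ' X := by
  intro s hs i μ hμ
  rw [frobPoly_base hσ] at hμ
  exact h s hs i μ hμ

lemma integral_base (h : HasIntegralPolys Φ σ X) : HasIntegralPolys (baseFrob Φ L) σ' X := by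
  intro i
  rw [frobPoly_base hσ]
  exact h i

lemma slope_base [Fact p.Prime] {D : ℕ} (h : IsSlopeDenominator Φ σ X D) :
    IsSlopeDenominator (baseFrob Φ L) σ' X D := by
  refine ⟨h.1, fun i P hP => ?_⟩
  rw [frobPoly_base hσ] at hP
  exact h.2 i P hP

end

/-- Classes of cycles have coniveau, for the extended coefficients. -/
lemma cyc_base (hcyc : ∀ (Y : 𝒱.Obj) (j : ℕ) (z : Y.Cycles), Y.IsCyc j z → W.cl Y z ∈ cv W j Y) :
    ∀ (Y : 𝒱.Obj) (j : ℕ) (z : Y.Cycles), Y.IsCyc j z → (baseW W L).cl Y z ∈ cv (baseW W L) j Y := by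
  intro Y j z hz
  have h1 : (1 : L) ⊗ₜ[W.K] (W.cl Y z) ∈ (cv W j Y).baseChange L :=
    Submodule.tmul_mem_baseChange_of_mem 1 (hcyc Y j z hz)
  rw [← cv_base] at h1
  exact h1

/-- Spans of cycles, for the extended coefficients. -/
lemma span_base {j : ℤ} {x : L ⊗[W.K] W.H Y} (hx : x ∈ (spanCycles W Y j).baseChange L) :
    x ∈ (spanCycles (baseW W L) Y j : Submodule L (L ⊗[W.K] W.H Y)) := by
  refine base_induction_mod (P := fun x : L ⊗[W.K] W.H Y =>
    x ∈ (spanCycles (baseW W L) Y j : Submodule L (L ⊗[W.K] W.H Y))) (Submodule.zero_mem _)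
      (fun _ _ => Submodule.add_mem _) ?_ hx
  intro l a ha
  induction ha using Submodule.span_induction with
  | mem a ha =>
    obtain ⟨r, hr, z, hz, rfl⟩ := ha
    have h1 : l ⊗ₜ[W.K] (W.cl Y z) = l • ((1 : L) ⊗ₜ[W.K] (W.cl Y z)) := by
      rw [TensorProduct.smul_tmul', smul_eq_mul, mul_one]
    rw [h1]
    have h2 : ((1 : L) ⊗ₜ[W.K] (W.cl Y z)) ∈
        (spanCycles (baseW W L) Y j : Submodule L (L ⊗[W.K] W.H Y)) :=
      Submodule.subset_span ⟨r, hr, z, hz, rfl⟩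
    exact Submodule.smul_mem _ l h2
  | zero => rw [TensorProduct.tmul_zero]; exact Submodule.zero_mem _
  | add a b _ _ ha hb => rw [TensorProduct.tmul_add]; exact Submodule.add_mem _ ha hb
  | smul c a _ ha =>
    rw [TensorProduct.tmul_smul, ← algebraMap_smul L]
    exact Submodule.smul_mem _ _ ha

/-- The Tate conjecture and semisimplicity, for the extended coefficients. -/
lemma tate_base {j : ℕ} (h : SemisimpleTateIn Φ Y j) : SemisimpleTateIn (baseFrob Φ L) Y j := by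
  intro s hs x hx
  obtain ⟨hx1, hx2⟩ := hx
  have h5 := frob_base (Φ := Φ) (L := L) Y s
  have hcard : ((card Φ Y s : L) ^ j) = algebraMap W.K L ((card Φ Y s : W.K) ^ j) := by
    rw [map_pow, map_natCast]
  have hE : (show L ⊗[W.K] W.H Y from x) ∈ Module.End.maxGenEigenspace
      ((frob Φ Y s).baseChange L : Module.End L (L ⊗[W.K] W.H Y))
      (algebraMap W.K L ((card Φ Y s : W.K) ^ j)) := by
    rw [← h5, ← hcard]
    exact hx1
  obtain ⟨n, hn⟩ := (Module.End.mem_maxGenEigenspace _ _ _).1 hE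
  apply span_base
  rw [mem_baseChange_iff]
  intro lam
  refine h s hs ⟨?_, mem_baseChange_iff.1 hx2 lam⟩
  refine (Module.End.mem_maxGenEigenspace _ _ _).2 ⟨n, ?_⟩
  set P : W.K[X] := (X - C ((card Φ Y s : W.K) ^ j)) ^ n with hP
  have h6 : ((frob Φ Y s - ((card Φ Y s : W.K) ^ j) • (1 : Module.End W.K (W.H Y))) ^ n) =
      aeval (frob Φ Y s) P := by
    rw [hP, map_pow, map_sub, aeval_X, aeval_C, Algebra.algebraMap_eq_smul_one]
  have h7 : (((frob Φ Y s).baseChange L : Module.End L (L ⊗[W.K] W.H Y)) -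
      (algebraMap W.K L ((card Φ Y s : W.K) ^ j)) • (1 : Module.End L (L ⊗[W.K] W.H Y))) ^ n =
      ((aeval (frob Φ Y s) P : Module.End W.K (W.H Y)).baseChange L :
        Module.End L (L ⊗[W.K] W.H Y)) := by
    rw [aeval_baseChange, hP, Polynomial.map_pow, map_pow (aeval _), Polynomial.map_sub,
      Polynomial.map_X, Polynomial.map_C, map_sub (aeval _), aeval_X, aeval_C]
    congr 2
  rw [h7] at hn
  have h8 : ((frob Φ Y s - ((card Φ Y s : W.K) ^ j) • (1 : Module.End W.K (W.H Y))) ^ n)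
      (coef lam x) = 0 := by
    rw [h6, ← coef_baseChange, hn, map_zero]
  exact h8

/-- All conjugates of the algebraic integer `ϖ` have the absolute value `p ^ (a / 2)`. -/
def IsWeilNumber {L : Type v} [Field L] (p a : ℕ) (ϖ : L) : Prop :=
  ∃ P : ℤ[X], P.Monic ∧ aeval ϖ P = 0 ∧ ∀ y : ℂ, aeval y P = 0 → ‖y‖ ^ 2 = (p : ℝ) ^ a

/-- The theorem of Honda and Tate over the field of the coefficients. -/
def HTL (L : Type v) [Field L] [Algebra W.K L] (Φ : FrobSystem W p) (𝒜 : Set 𝒱.Obj) : Prop :=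
  ∀ (a : ℕ) (ϖ : L), 0 < a → IsWeilNumber p a ϖ →
    ∃ A ∈ 𝒜, ∃ r t : ℕ, 0 < r ∧ 0 < t ∧ card Φ A t = p ^ (a * r) ∧
      aeval (ϖ ^ r) (charpolyOn (frob Φ A t) (W.gr A 1)) = 0

lemma isWeil_of {L : Type v} [Field L] [CharZero L] {a : ℕ} {ϖ : L} (h : IsIntegral ℤ ϖ)
    (h' : ∀ y : ℂ, aeval y (minpoly ℚ ϖ) = 0 → ‖y‖ ^ 2 = (p : ℝ) ^ a) : IsWeilNumber p a ϖ := by
  refine ⟨minpoly ℤ ϖ, minpoly.monic h, minpoly.aeval _ _, fun y hy => h' y ?_⟩
  rw [minpoly.isIntegrallyClosed_eq_field_fractions' ℚ h, aeval_map_algebraMap]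
  exact hy

lemma ht_base [hp : Fact p.Prime] {𝒜 : Set 𝒱.Obj} (h : HTL L Φ 𝒜) : HTW (baseFrob Φ L) 𝒜 := by
  intro a ϖ ha hint hy
  obtain ⟨A, hA, r, t, hr, ht, h1, h2⟩ := h a ϖ ha (isWeil_of (L := (baseW W L).K) hint hy)
  refine ⟨A, hA, r, t, hr, ht, ?_, ?_⟩
  · exact (Nat.pow_right_injective hp.out.two_le h1).symm
  · have hst : ∀ x ∈ W.gr A 1, frob Φ A t x ∈ W.gr A 1 := fun _ hx => W.map_mem _ hx
    set FU : Module.End W.K (W.gr A 1) := (frob Φ A t).restrict hst with hFU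
    set F' : Module.End L (L ⊗[W.K] (W.gr A 1)) := FU.baseChange L with hF'
    rw [charpolyOn_eq hst] at h2
    have h3 : F'.charpoly.IsRoot ((show L from ϖ) ^ r) := by
      rw [hF', LinearMap.charpoly_baseChange, IsRoot.def, eval_map_algebraMap]
      exact h2
    obtain ⟨y, hy1, hy2⟩ :=
      ((Module.End.hasEigenvalue_iff_isRoot_charpoly F' _).2 h3).exists_hasEigenvector
    have hy3 : F' y = ((show L from ϖ) ^ r) • y := Module.End.mem_eigenspace_iff.1 hy1
    let θ : L ⊗[W.K] (W.gr A 1) →ₗ[L] L ⊗[W.K] W.H A := (W.gr A 1).subtype.baseChange L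
    have hinj : Function.Injective θ :=
      Module.Flat.lTensor_preserves_injective_linearMap _ Subtype.val_injective
    have hθ : ∀ y, (frob Φ A t).baseChange L (θ y) = θ (F' y) := by
      intro y
      induction y using TensorProduct.induction_on with
      | zero => simp only [map_zero]
      | add x y hx hy => simp only [map_add, hx, hy]
      | tmul l a =>
        simp only [θ, hF', LinearMap.baseChange_tmul]
        rfl
    refine ⟨θ y, ?_, ?_, ?_⟩
    · clear hy1 hy2 hy3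
      change θ y ∈ (W.gr A 1).baseChange L
      induction y using TensorProduct.induction_on with
      | zero => rw [map_zero]; exact Submodule.zero_mem _
      | add x y hx hy => rw [map_add]; exact Submodule.add_mem _ hx hy
      | tmul l a => exact Submodule.tmul_mem_baseChange_of_mem l a.2
    · intro h0
      apply hy2
      apply hinj
      rw [map_zero]
      exact h0
    · have h5 := frob_base (Φ := Φ) (L := L) A t
      have h6 : (frob (baseFrob Φ L) A t : L ⊗[W.K] W.H A →ₗ[L] L ⊗[W.K] W.H A) (θ y) =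
          ((show L from ϖ) ^ r) • θ y := by
        rw [h5]
        exact (hθ y).trans (by rw [hy3, map_smul])
      refine (Module.End.mem_maxGenEigenspace _ _ _).2 ⟨1, ?_⟩
      rw [pow_one, LinearMap.sub_apply, sub_eq_zero]
      exact h6

/-- Domination and extension of the coefficients. -/
lemma dom_base [Fact p.Prime] (h : Dom Φ Y' Y) : Dom (baseFrob Φ L) Y' Y := by
  obtain ⟨f, j, c, ⟨hc, s, hs, h1⟩, h2⟩ := h
  refine ⟨f, j, (1 : L) ⊗ₜ[W.K] c, ⟨Submodule.tmul_mem_baseChange_of_mem 1 hc, s, hs, ?_⟩, ?_⟩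
  · have h3 : (baseW W L).map (W534.iter (Φ.Fr Y') s) ((1 : L) ⊗ₜ[W.K] c) =
        (((p : L) ^ (Φ.e Y' * s * j)) • ((1 : L) ⊗ₜ[W.K] c) : L ⊗[W.K] W.H Y') := by
      rw [base_map_tmul, h1, TensorProduct.tmul_smul, ← algebraMap_smul L, map_pow, map_natCast]
    exact h3
  · have h3 : (W.push f).baseChange L ((1 : L) ⊗ₜ[W.K] c) = (1 : L) ⊗ₜ[W.K] (1 : W.H Y) := by
      rw [LinearMap.baseChange_tmul, h2]
    exact h3

lemma GTCL.of_dom [IsAlgClosed L] [Fact p.Prime] (h : Dom Φ Y' Y) (hY : GTCL L Φ Y') :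
    GTCL L Φ Y :=
  gtc_iff.2 ((gtc_iff.1 hY).of_dom (dom_base h))

/-- **Reduction of the generalized Tate conjecture.** -/
theorem gtc_red [IsAlgClosed L] [Fact p.Prime] [Algebra.IsAlgebraic W.K L]
    (hRHX : RiemannHyp Φ σ X) (hRHZ : RiemannHyp Φ σ Z)
    (hX : HasIntegralPolys Φ σ X) (hZ : HasIntegralPolys Φ σ Z) {E : X.Cycles} (hE : X.IsCyc 1 E)
    (hbig : Big ops X E) {F : Z.Cycles} (hF : Z.IsCyc 1 F) (hbigZ : Big ops Z F)
    {D : ℕ} (hD : IsSlopeDenominator Φ σ X D)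
    (h : GTCL L Φ (Z.prod (pw X (gtcBound (finrank W.K (W.H X)) D Z.dim - 1)))) (n : ℕ) :
    GTCL L Φ (Z.prod (pw X n)) := by
  obtain ⟨σ', hσ⟩ := exists_ext (L := L) σ
  have hfin : finrank (baseW W L).K ((baseW W L).H X) = finrank W.K (W.H X) :=
    Module.finrank_baseChange (R := L) (S := W.K) (M' := W.H X)
  have hclosed : IsAlgClosed (baseW W L).K := inferInstanceAs (IsAlgClosed L)
  rw [gtc_iff] at h ⊢
  refine GC_red (riemann_base hσ hRHX) (riemann_base hσ hRHZ) (integral_base hσ hX)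
    (integral_base hσ hZ) hE hbig hF hbigZ (slope_base hσ hD) ?_ n
  rw [hfin]
  exact h

/-- **The Tate conjecture implies the generalized Tate conjecture.** -/
theorem gtc_of_tate [IsAlgClosed L] [Fact p.Prime] [Algebra.IsAlgebraic W.K L]
    (hcyc : ∀ (Y : 𝒱.Obj) (j : ℕ) (z : Y.Cycles), Y.IsCyc j z → W.cl Y z ∈ cv W j Y)
    (hRH : RiemannHyp Φ σ Y) (hint : HasIntegralPolys Φ σ Y) {𝒜 : Set 𝒱.Obj} (hA : HTL L Φ 𝒜) :
    ∃ 𝓕 : Set 𝒱.Obj, 𝓕 ⊆ 𝒜 ∧ 𝓕.Finite ∧
      ((∀ A ∈ 𝓕, ∀ m ≤ 2 * Y.dim, ∀ j, SemisimpleTateIn Φ ((pw A m).prod Y) j) →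
        GTCL L Φ Y) := by
  obtain ⟨σ', hσ⟩ := exists_ext (L := L) σ
  have hclosed : IsAlgClosed (baseW W L).K := inferInstanceAs (IsAlgClosed L)
  obtain ⟨𝓕, h1, h2, h3⟩ := GC_of_tate (Y := Y) (cyc_base (L := L) hcyc) (riemann_base hσ hRH)
    (integral_base hσ hint) (ht_base hA)
  refine ⟨𝓕, h1, h2, fun h => ?_⟩
  rw [gtc_iff]
  exact h3 fun A hA m hm j => tate_base (h A hA m hm j)

/-- **Splitting.** -/
theorem gtc_split [IsAlgClosed L] [Fact p.Prime] [Algebra.IsAlgebraic W.K L]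
    (hRHX : RiemannHyp Φ σ X) (hRHZ : RiemannHyp Φ σ Z)
    (hX : HasIntegralPolys Φ σ X) (hZ : HasIntegralPolys Φ σ Z) {E : X.Cycles} (hE : X.IsCyc 1 E)
    (hbig : Big ops X E) {D : ℕ} (hD : IsSlopeDenominator Φ σ X D) {n : ℕ}
    (hn : gtcBound (finrank W.K (W.H X)) D Z.dim < n + 1) {i ν : ℕ}
    {V : Submodule W.K (W.H (Z.prod (pw X n)))} (hV : Eff L Φ i ν V) :
    V ≤ Submodule.span W.K {x | ExtL L Φ Z X n i ν x} := by
  obtain ⟨σ', hσ⟩ := exists_ext (L := L) σ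
  exact splitL (riemann_base hσ hRHX) (riemann_base hσ hRHZ) (integral_base hσ hX)
    (integral_base hσ hZ) hE hbig (slope_base hσ hD) hn hV

end Pool.Agent.N204.GT
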